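import Pool.Agent.Lib.MP_df8f2d_nt.Cnt.Greedy

/-!
Arithmetic of the equation `3 φ n = 2 n + 2`, written for the set of prime factors of `n`.
-/

namespace Pool.Agent.Lib.MP_df8f2d_nt.Cnt

open Finset

/-- The totient of a product of distinct primes. -/
def ph (S : Finset ℕ) : ℕ := ∏ p ∈ S, (p - 1)

/-- The set of prime factors of a solution. -/
def Sol (S : Finset ℕ) : Prop := (∀ p ∈ S, p.Prime) ∧ 3 * ph S = 2 * pr S + 2

theorem ph_le (S : Finset ℕ) : ph S ≤ pr S := prod_le_prod' fun _ _ => Nat.sub_le _ _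

theorem ph_sdiff {S T : Finset ℕ} (h : T ⊆ S) : ph (S \ T) * ph T = ph S := prod_sdiff h

theorem pr_inj {S T : Finset ℕ} (hS : ∀ p ∈ S, p.Prime) (hT : ∀ p ∈ T, p.Prime)
    (h : pr S = pr T) : S = T := by
  rw [← Nat.primeFactors_prod hS, ← Nat.primeFactors_prod hT]
  exact congrArg Nat.primeFactors h

theorem pr_win (Q : ℕ) (R : Finset ℕ) (h : ∀ p ∈ R, Q ≤ p) :
    Q * pr R ≤ Q * ph R + R.card * pr R := by
  induction R using Finset.induction_on with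
  | empty => simp [pr, ph]
  | insert p R hp ih =>
    have h1 := ih fun a ha => h a (mem_insert_of_mem ha)
    have h2 := h p (mem_insert_self _ _)
    have h3 := ph_le R
    have h4 : ph (insert p R) = (p - 1) * ph R := prod_insert hp
    rw [pr_insert hp, h4, card_insert_of_notMem hp]
    rcases p with _ | p
    · simp
    · have h5 := Nat.mul_le_mul_left (p + 1) h1
      have h6 := Nat.mul_le_mul h2 h3
      rw [Nat.add_sub_cancel]
      nlinarith

namespace Sol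

variable {S : Finset ℕ} (h : Sol S)

include h

theorem pos : ∀ a ∈ S, 0 < a := fun a ha => (h.1 a ha).pos

theorem sub {T : Finset ℕ} (hT : T ⊆ S) : 2 * pr T < 3 * ph T := by
  have h1 := h.2
  have h2 := ph_le (S \ T)
  rw [← pr_sdiff hT, ← ph_sdiff hT] at h1
  refine lt_of_mul_lt_mul_left (a := pr (S \ T)) ?_ (Nat.zero_le _)
  have := Nat.mul_le_mul_right (ph T) h2
  nlinarith

theorem coprime {T : Finset ℕ} (hT : T ⊆ S) : (pr T).Coprime (ph T) := by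
  refine Nat.Coprime.of_dvd (Dvd.intro_left _ (pr_sdiff hT)) (Dvd.intro_left _ (ph_sdiff hT))
    (Nat.coprime_of_dvd fun k hk h1 h2 => ?_)
  have h3 : k ∣ 2 := (Nat.dvd_add_right (h1.mul_left 2)).1 (h.2 ▸ h2.mul_left 3)
  obtain rfl := (Nat.prime_dvd_prime_iff_eq hk Nat.prime_two).1 h3
  obtain ⟨p, hp, h4⟩ := (Prime.dvd_finsetProd_iff hk.prime _).1 h1
  obtain rfl := (Nat.prime_dvd_prime_iff_eq hk (h.1 p hp)).1 h4
  have := h.sub (singleton_subset_iff.2 hp)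
  simp [pr, ph] at this

theorem win {q Q N : ℕ} (hq : q ∈ S) (hQ : Q ≤ q) (hN : S.card ≤ N) :
    Q * (3 * ph (lo S q)) ≤ (2 * Q + 5 * N) * pr (lo S q) := by
  have hT : lo S q ⊆ S := filter_subset _ _
  have h1 := h.2
  have hqR : q ∈ S \ lo S q := by simp [hq]
  have h2 := pr_win Q (S \ lo S q) fun p hp => by
    simp only [mem_sdiff, mem_lo, not_and, not_lt] at hp
    exact hQ.trans (hp.2 hp.1)
  have h3 := ph_le (lo S q)
  have h4 : 0 < pr (S \ lo S q) := pr_pos fun a ha => h.pos a (mem_sdiff.1 ha).1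
  have h5 : Q ≤ pr (S \ lo S q) := hQ.trans (Nat.le_of_dvd h4 (dvd_prod_of_mem _ hqR))
  have h6 : 0 < pr (lo S q) := pr_pos fun a ha => h.pos a (hT ha)
  have h7 : (S \ lo S q).card ≤ N := (card_le_card sdiff_subset).trans hN
  have h8 : 1 ≤ N := (card_pos.2 ⟨q, hqR⟩).trans_le h7
  rw [← pr_sdiff hT, ← ph_sdiff hT] at h1
  refine le_of_mul_le_mul_left ?_ h4
  generalize pr (S \ lo S q) = R at *
  generalize ph (S \ lo S q) = r at *
  generalize pr (lo S q) = A at *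
  generalize ph (lo S q) = a at *
  generalize (S \ lo S q).card = k at *
  have a1 : k * R * a ≤ N * R * A := by gcongr
  have a2 : Q * 1 * 1 ≤ R * N * A := Nat.mul_le_mul (Nat.mul_le_mul h5 h8) h6
  calc R * (Q * (3 * a)) = 3 * a * (Q * R) := by ring
    _ ≤ 3 * a * (Q * r + k * R) := Nat.mul_le_mul_left _ h2
    _ = Q * (3 * (r * a)) + 3 * (k * R * a) := by ring
    _ ≤ _ := by rw [h1]; nlinarith

theorem gap {N : ℕ} (hN : S.card ≤ N) : ∀ q ∈ S, q ≤ 5 * N * pr (lo S q) := fun q hq => by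
  have h1 := h.win hq le_rfl hN
  have h2 := Nat.mul_le_mul_left q (h.sub (T := lo S q) (filter_subset _ _))
  rw [Nat.succ_eq_add_one] at h2
  nlinarith

theorem space {S' X : Finset ℕ} (h' : Sol S') (hX : X ⊆ S) (hX' : X ⊆ S') (hlt : pr S < pr S') :
    3 * pr S + pr X ^ 2 < 3 * pr S' := by
  obtain ⟨k, hk⟩ := Nat.exists_eq_add_of_lt hlt
  have a1 : pr X ∣ 2 * (k + 1) := by
    refine ((Nat.dvd_add_right (Dvd.intro_left _ (pr_sdiff hX))).1 ?_).mul_left 2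
    rw [← add_assoc, ← hk]
    exact Dvd.intro_left _ (pr_sdiff hX')
  have a2 : ph X ∣ 2 * (k + 1) := by
    have b1 : ph X ∣ 2 * pr S + 2 := h.2 ▸ (Dvd.intro_left _ (ph_sdiff hX)).mul_left 3
    have b2 : ph X ∣ 2 * pr S' + 2 := h'.2 ▸ (Dvd.intro_left _ (ph_sdiff hX')).mul_left 3
    refine (Nat.dvd_add_right b1).1 ?_
    convert b2 using 1
    omega
  have a3 := Nat.le_of_dvd (by omega) ((h.coprime hX).mul_dvd_of_dvd_of_dvd a1 a2)
  have a4 := h.sub hX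
  have a5 : 0 < pr X := pr_pos fun a ha => h.pos a (hX ha)
  nlinarith

end Sol

theorem decode_aux {Q K a A a' A' b B : ℕ} (hB : 2 * B < 3 * b)
    (h1 : Q * (3 * (b * a)) ≤ (2 * Q + K) * (B * A)) (h2 : 2 * (B * A') < 3 * (b * a'))
    (h3 : K * A ^ 2 ≤ 2 * Q) (h4 : K * A' ^ 2 ≤ 2 * Q) (hQ : 0 < Q) : a * A' ≤ a' * A := by
  by_contra! h
  have k0 : 2 * (A * A') ≤ A ^ 2 + A' ^ 2 := by
    zify
    nlinarith [sq_nonneg ((A : ℤ) - A')]
  have k1 : K * (A * A') ≤ 2 * Q := by nlinarith [Nat.mul_le_mul_left K k0]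
  have k2 := Nat.mul_le_mul_right A' h1
  have k3 := Nat.mul_le_mul_left (Q * A) h2.le
  have k4 := Nat.mul_le_mul_left (Q * (3 * b)) (Nat.succ_le_of_lt h)
  have k5 := Nat.mul_le_mul_left B k1
  have k6 := Nat.mul_lt_mul_of_pos_left hB hQ
  rw [Nat.succ_eq_add_one] at k4
  nlinarith

theorem decode {S S' M M' : Finset ℕ} (h : Sol S) (h' : Sol S') {q q' Q N : ℕ} (hq : q ∈ S)
    (hq' : q' ∈ S') (hQ : Q ≤ q) (hQ' : Q ≤ q') (hN : S.card ≤ N) (hN' : S'.card ≤ N)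
    (hQ0 : 0 < Q) (hM : M ⊆ lo S q) (hM' : M' ⊆ lo S' q') (e : lo S q \ M = lo S' q' \ M')
    (h3 : 5 * N * pr M ^ 2 ≤ 2 * Q) (h4 : 5 * N * pr M' ^ 2 ≤ 2 * Q) : M = M' := by
  have s1 : lo S q ⊆ S := filter_subset _ _
  have s2 : lo S' q' ⊆ S' := filter_subset _ _
  have w1 := h.win hq hQ hN
  have w2 := h'.win hq' hQ' hN'
  have w3 := h.sub s1
  have w4 := h'.sub s2
  have w5 := h'.sub ((sdiff_subset : lo S' q' \ M' ⊆ _).trans s2)
  rw [← pr_sdiff hM, ← ph_sdiff hM, e] at w1 w3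
  rw [← pr_sdiff hM', ← ph_sdiff hM'] at w2 w4
  have e1 := le_antisymm (decode_aux w5 w1 w4 h3 h4 hQ0)
    (decode_aux w5 w2 w3 h4 h3 hQ0)
  refine pr_inj (fun p hp => h.1 p (s1 (hM hp))) (fun p hp => h'.1 p (s2 (hM' hp)))
    (Nat.dvd_antisymm ?_ ?_)
  · exact (h.coprime (hM.trans s1)).dvd_of_dvd_mul_left (e1 ▸ Dvd.intro_left _ rfl)
  · exact (h'.coprime (hM'.trans s2)).dvd_of_dvd_mul_left (e1 ▸ Dvd.intro_left _ rfl)

theorem fib {C : Finset (Finset ℕ)} {X : Finset ℕ} {Y H : ℕ} (hC : ∀ S ∈ C, Sol S)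
    (hX : ∀ S ∈ C, X ⊆ S) (hY : ∀ S ∈ C, pr S ≤ Y) (hH : H ≤ pr X) (hH0 : 0 < H) :
    C.card ≤ 3 * Y / H ^ 2 + 1 := by
  have key : ∀ S ∈ C, ∀ S' ∈ C, pr S < pr S' → 3 * pr S / H ^ 2 < 3 * pr S' / H ^ 2 := by
    intro S hS S' hS' hlt
    have h1 := (hC S hS).space (hC S' hS') (hX S hS) (hX S' hS') hlt
    have h2 := Nat.pow_le_pow_left hH 2
    refine lt_of_lt_of_le ?_ (Nat.div_le_div_right (show 3 * pr S + H ^ 2 ≤ _ by omega))
    rw [Nat.add_div_right _ (by positivity)]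
    exact Nat.lt_succ_self _
  rw [← card_range (3 * Y / H ^ 2 + 1)]
  refine card_le_card_of_injOn (fun S => 3 * pr S / H ^ 2) (fun S hS => ?_) fun S hS S' hS' e => ?_
  · exact mem_coe.2 (mem_range.2 (Nat.lt_succ_of_le (Nat.div_le_div_right
      (Nat.mul_le_mul_left 3 (hY S hS)))))
  · refine pr_inj (hC S hS).1 (hC S' hS').1 ?_
    rcases lt_trichotomy (pr S) (pr S') with h | h | h
    · exact absurd e (key S hS S' hS' h).ne
    · exact h
    · exact absurd e (key S' hS' S hS h).ne'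

/-- Solutions that have a divisor near the square root in a family `V`. -/
theorem near {C V : Finset (Finset ℕ)} {K : ℕ} (hC : ∀ S ∈ C, Sol S)
    (h : ∀ S ∈ C, ∃ X ∈ V, X ⊆ S ∧ pr S ≤ (K * pr X) ^ 2) :
    C.card ≤ (3 * K ^ 2 + 1) * V.card := by
  choose! X h1 h2 h3 using h
  refine card_le_mul_card_image_of_maps_to h1 _ fun T _ => ?_
  rcases (C.filter fun S => X S = T).eq_empty_or_nonempty with e | ⟨S, hS⟩
  · simp [e]
  obtain ⟨a1, a2⟩ := mem_filter.1 hS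
  have hp : 0 < pr T := pr_pos fun a ha => (hC S a1).pos a (h2 S a1 (a2 ▸ ha))
  refine (fib (C := C.filter fun S => X S = T) (X := T) (Y := (K * pr T) ^ 2)
    (fun S hS => hC S (mem_filter.1 hS).1)
    (fun S hS => (mem_filter.1 hS).2 ▸ h2 S (mem_filter.1 hS).1)
    (fun S hS => (mem_filter.1 hS).2 ▸ h3 S (mem_filter.1 hS).1) le_rfl hp).trans_eq ?_
  rw [mul_pow, ← mul_assoc, Nat.mul_div_cancel _ (by positivity)]

end Pool.Agent.Lib.MP_df8f2d_nt.Cnt
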