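import Pool.Agent.Lib.MP_df8f2d_nt.Cnt.Red

/-!
The choice of the parameters.
-/

open scoped Nat

namespace Pool.Agent.Lib.MP_df8f2d_nt.Cnt

open Finset

theorem pw {k : ℕ} (hk : 40 ≤ k) : 1000 * k ^ 4 ≤ 2 ^ k := by
  induction k, hk using Nat.le_induction with
  | base => norm_num
  | succ k hk ih =>
    have h1 : 40 * k ^ 3 ≤ k ^ 4 := by
      rw [show k ^ 4 = k * k ^ 3 by ring]
      exact Nat.mul_le_mul_right _ hk
    have h2 : k ^ 2 ≤ k ^ 3 := Nat.pow_le_pow_right (by omega) (by omega)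
    have h3 : k ^ 1 ≤ k ^ 3 := Nat.pow_le_pow_right (by omega) (by omega)
    have h4 : k ^ 0 ≤ k ^ 3 := Nat.pow_le_pow_right (by omega) (by omega)
    rw [pow_succ 2]
    nlinarith

theorem count_nat {x N τ J : ℕ} (hx : x < 2 ^ N) (hx' : 2 ^ (N - 1) ≤ x) (h1 : 16 ^ τ ≤ N)
    (h2 : N < 16 ^ (τ + 1)) (hτ : 48 ≤ τ) (hJ : 4 * J ≤ τ) :
    (((Icc 1 x).filter fun m => (fun n => n + φ n)^[2] m = 2 * m).card : ℝ) ≤
      √x * 2 ^ (25 * τ) / 2 ^ (τ * J) := by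
  obtain ⟨C, hC, hM⟩ := red_card hx
  have p0 := pw (k := τ) (by omega)
  have p1 : τ ^ 2 ≤ τ ^ 4 := Nat.pow_le_pow_right (by omega) (by omega)
  have p2 : τ ^ 3 ≤ τ ^ 4 := Nat.pow_le_pow_right (by omega) (by omega)
  have p3 : 48 * τ ≤ τ ^ 2 := by nlinarith
  have p4 : 2 ^ τ ≤ 4 ^ τ := Nat.pow_le_pow_left (by norm_num) _
  have p5 : 4 ^ τ = 2 ^ τ * 2 ^ τ := mul_pow 2 2 τ
  have p6 : 16 ^ τ = 2 ^ τ * (4 ^ τ * 2 ^ τ) := by
    rw [← mul_pow, ← mul_pow]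
    rfl
  have hN : 2 ≤ N := by nlinarith [Nat.one_le_two_pow (n := τ)]
  have hK : 5 * N ≤ 2 ^ (4 * τ + 7) := by
    rw [pow_add, pow_mul, show 2 ^ 4 = 16 from rfl]
    rw [pow_succ] at h2
    omega
  have hs : (0 : ℝ) < √x := Real.sqrt_pos.2 (by
    exact_mod_cast lt_of_lt_of_le (by positivity) hx')
  have hb := bound (C := C) (y := Nat.sqrt ((5 * N) ^ 2 * x)) (Θ := 2 ^ (2 * τ ^ 2)) (v := τ ^ 2)
    (α := 2 * τ ^ 2 * 2 + (4 * τ + 7) * 2) (Λ := 4 ^ τ) (J := J) (L := 2 * N + 3)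
    (R := (5 * N : ℕ) ^ 2 * √x / 2 ^ τ ^ 2) hx (by omega)
    (hK.trans (Nat.pow_le_pow_right two_pos (by omega))) (by positivity) ?_
    (fun d hd => Nat.le_sqrt'.2 hd) ?_ (by positivity) ?_ ?_ hC
  rotate_left
  · have a1 : (1 : ℝ) ≤ (5 * N : ℕ) := by exact_mod_cast (by omega)
    rw [div_pow, mul_pow _ √x, Real.sq_sqrt (by positivity), Nat.cast_pow, Nat.cast_pow, ← pow_mul,
      ← pow_mul, mul_comm (τ ^ 2) 2, Nat.cast_ofNat, mul_div_cancel₀ _ (by positivity)]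
    gcongr
    norm_num
  · refine Nat.le_of_lt_succ (Nat.sqrt_lt'.2 (lt_of_le_of_lt ?_
      (Nat.pow_lt_pow_left (Nat.lt_succ_self _) two_ne_zero)))
    have a1 : 5 * N ≤ 2 ^ (N + 3) := by
      have := Nat.lt_two_pow_self (n := N)
      rw [pow_add]
      omega
    calc _ ≤ (2 ^ (N + 3)) ^ 2 * (2 ^ N) ^ 2 :=
          Nat.mul_le_mul (Nat.pow_le_pow_left a1 2) (hx.le.trans (Nat.le_self_pow two_ne_zero _))
      _ = _ := by ring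
  · rw [pow_add, pow_mul 2 (4 * τ + 7), pow_mul 2 (2 * τ ^ 2)]
    gcongr
  · calc _ ≤ (2 ^ (4 * τ + 7)) ^ 2 * (2 ^ (2 * τ ^ 2)) ^ 3 := by gcongr
      _ ≤ _ := by
        rw [← pow_mul, ← pow_mul, ← pow_add]
        exact Nat.pow_le_pow_right two_pos (by omega)
  have q1 : τ * J ≤ τ ^ 2 := by nlinarith
  have q2 : (((2 ^ 4 ^ τ) ^ (2 * τ ^ 2 + 1)) ^ 16 ^ J) ^ 2 * 2 ^ (τ * J) ≤ Nat.sqrt x := by
    rw [Nat.le_sqrt', ← pow_mul, ← pow_mul, ← pow_mul, ← pow_add, ← pow_mul]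
    refine le_trans (Nat.pow_le_pow_right two_pos ?_) hx'
    have a0 : 16 ^ J ≤ 2 ^ τ := by
      rw [show 16 = 2 ^ 4 from rfl, ← pow_mul]
      exact Nat.pow_le_pow_right two_pos hJ
    have a1 : 4 ^ τ * ((2 * τ ^ 2 + 1) * (16 ^ J * 2)) ≤ 6 * (τ ^ 4 * (4 ^ τ * 2 ^ τ)) := by
      calc _ ≤ 4 ^ τ * ((3 * τ ^ 4) * (2 ^ τ * 2)) := by gcongr; omega
        _ = _ := by ring
    have a2 : 1000 * (τ ^ 4 * (4 ^ τ * 2 ^ τ)) ≤ 16 ^ τ := by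
      rw [p6, ← mul_assoc]
      exact Nat.mul_le_mul_right _ p0
    have a3 : τ ^ 4 ≤ τ ^ 4 * (4 ^ τ * 2 ^ τ) := Nat.le_mul_of_pos_right _ (by positivity)
    omega
  have q3 : (((2 * τ ^ 2 : ℕ) : ℝ) + 1) * ((2 * (2 * τ ^ 2 * 2 + (4 * τ + 7) * 2 : ℕ) + 1) *
      (4 / (4 ^ τ : ℕ))) ≤ 1 / 2 ^ τ := by
    rw [← mul_assoc, ← mul_div_assoc, div_le_div_iff₀ (by positivity) (by positivity), p5, one_mul,
      Nat.cast_mul (2 ^ τ), Nat.cast_pow 2 τ, Nat.cast_ofNat]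
    gcongr
    exact_mod_cast (by nlinarith :
      (2 * τ ^ 2 + 1) * (2 * (2 * τ ^ 2 * 2 + (4 * τ + 7) * 2) + 1) * 4 ≤ 2 ^ τ)
  have r0 : (0 : ℝ) < 2 ^ (τ * J) := by positivity
  have r1 : (((((2 ^ 4 ^ τ) ^ (2 * τ ^ 2 + 1)) ^ 16 ^ J) ^ 2 : ℕ) : ℝ) ≤ √x / 2 ^ (τ * J) := by
    rw [le_div_iff₀ r0]
    exact le_trans (by exact_mod_cast q2) Real.nat_sqrt_le_real_sqrt
  have r2 : (1 : ℝ) ≤ √x / 2 ^ (τ * J) :=
    le_trans (by exact_mod_cast Nat.one_le_pow _ _ (by positivity)) r1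
  have r3 : (Nat.sqrt ((5 * N) ^ 2 * x) : ℝ) ≤ (5 * N : ℕ) * √x := by
    refine Real.nat_sqrt_le_real_sqrt.trans_eq ?_
    rw [Nat.cast_mul, Nat.cast_pow, Real.sqrt_mul (by positivity), Real.sqrt_sq (by positivity)]
  have r4 : (2 : ℝ) ^ (τ * J) ≤ 2 ^ τ ^ 2 := pow_le_pow_right₀ one_le_two q1
  have r5 : (N : ℝ) + 1 ≤ (5 * N : ℕ) := by exact_mod_cast (by omega)
  have r6 : ((2 * N + 3 : ℕ) : ℝ) + 1 ≤ (5 * N : ℕ) := by exact_mod_cast (by omega)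
  have r7 : ((3 * (5 * N) ^ 2 + 1 : ℕ) : ℝ) ≤ 4 * (5 * N : ℕ) ^ 2 := by
    exact_mod_cast (by nlinarith : 3 * (5 * N) ^ 2 + 1 ≤ 4 * (5 * N) ^ 2)
  have r8 : (1 : ℝ) ≤ (5 * N : ℕ) := by exact_mod_cast (by omega)
  have r9 : ((5 * N : ℕ) : ℝ) ≤ 2 ^ (4 * τ + 7) := by exact_mod_cast hK
  have hM' : (((Icc 1 x).filter fun m => (fun n => n + φ n)^[2] m = 2 * m).card : ℝ) ≤
      (5 * N : ℕ) * (2 + 2 * C.card) := by
    exact_mod_cast hM.trans (Nat.mul_le_mul_right _ (by omega))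
  generalize ((5 * N : ℕ) : ℝ) = K at *
  have s1 : (C.card : ℝ) ≤ √x / 2 ^ (τ * J) + K ^ 3 * (14 * (K ^ 2 * √x / 2 ^ (τ * J))) +
      4 * K ^ 2 * (K * √x * K / 2 ^ (τ * J) + K * √x * ((1 / 2 ^ τ) ^ J * K) +
        K * √x * ((1 / 2 ^ τ) ^ J * K)) := by
    refine hb.trans ?_
    gcongr
  have s2 : (C.card : ℝ) ≤ 27 * K ^ 5 * (√x / 2 ^ (τ * J)) := by
    have a1 : K ^ 4 ≤ K ^ 5 := pow_le_pow_right₀ r8 (by norm_num)
    have a2 : 1 ≤ K ^ 5 := one_le_pow₀ r8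
    refine s1.trans ((le_of_eq (b := (1 + 14 * K ^ 5 + 12 * K ^ 4) * (√x / 2 ^ (τ * J)))
      ?_).trans ?_)
    · rw [div_pow, one_pow, ← pow_mul]
      ring
    · gcongr
      linarith
  have s3 : (2 : ℝ) ≤ 2 * K ^ 5 * (√x / 2 ^ (τ * J)) := by
    have := one_le_mul_of_one_le_of_one_le (one_le_pow₀ (n := 5) r8) r2
    linarith
  calc _ ≤ K * (56 * K ^ 5 * (√x / 2 ^ (τ * J))) := hM'.trans (by gcongr; linarith)
    _ = 56 * K ^ 6 * (√x / 2 ^ (τ * J)) := by ring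
    _ ≤ 2 ^ 6 * (2 ^ (4 * τ + 7)) ^ 6 * (√x / 2 ^ (τ * J)) := by gcongr; norm_num
    _ ≤ 2 ^ (25 * τ) * (√x / 2 ^ (τ * J)) := by
        rw [← pow_mul, ← pow_add]
        gcongr
        · norm_num
        · omega
    _ = _ := by ring

theorem count_real {x : ℕ} (T : ℕ) (hT : 520 ≤ T) (hx : 2 ^ 16 ^ T ≤ x) :
    (((Icc 1 x).filter fun m => (fun n => n + φ n)^[2] m = 2 * m).card : ℝ) ≤
      √x * Real.exp (-(Real.log (Real.log x) ^ 2 / 100)) := by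
  have hx0 : x ≠ 0 := (lt_of_lt_of_le (by positivity) hx).ne'
  have n1 := Nat.lt_pow_succ_log_self one_lt_two x
  have n2 := Nat.pow_log_le_self 2 hx0
  have n3 := Nat.le_log_of_pow_le one_lt_two hx
  generalize Nat.log 2 x = n at *
  have t1 := Nat.lt_pow_succ_log_self (by norm_num : 1 < 16) (n + 1)
  have t2 := Nat.pow_log_le_self 16 n.succ_ne_zero
  have t3 := hT.trans (Nat.le_log_of_pow_le (by norm_num : 1 < 16) (n3.trans n.le_succ))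
  rw [Nat.succ_eq_add_one] at *
  generalize Nat.log 16 (n + 1) = τ at *
  obtain ⟨J, j1, j2⟩ : ∃ J, 4 * J ≤ τ ∧ τ ≤ 4 * J + 4 := ⟨τ / 4, by omega, by omega⟩
  refine (count_nat (J := J) n1 n2 t2 t1 (by omega) j1).trans ?_
  have l1 := Real.log_two_gt_d9
  have l2 := Real.log_two_lt_d9
  have hτ : (520 : ℝ) ≤ τ := by exact_mod_cast t3
  have x0 : (0 : ℝ) < x := by positivity
  have x1 : Real.log x ≤ 2 ^ (4 * (τ + 1)) := by
    have a1 : Real.log x ≤ Real.log (2 ^ (n + 1)) := Real.log_le_log x0 (by exact_mod_cast n1.le)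
    have a2 : ((n + 1 : ℕ) : ℝ) ≤ 2 ^ (4 * (τ + 1)) := by
      rw [pow_mul]
      exact_mod_cast t1.le
    rw [Real.log_pow] at a1
    nlinarith
  have x2 : (1 : ℝ) ≤ Real.log x := by
    have a1 : Real.log (2 ^ n) ≤ Real.log x :=
      Real.log_le_log (by positivity) (by exact_mod_cast n2)
    have a2 : 16 ^ 1 ≤ 16 ^ τ := Nat.pow_le_pow_right (by norm_num) (by omega)
    have a3 : (2 : ℝ) ≤ n := by exact_mod_cast (by omega)
    rw [Real.log_pow] at a1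
    nlinarith
  have y1 : Real.log (Real.log x) ≤ 3 * τ := by
    have := Real.log_le_log (by linarith) x1
    rw [Real.log_pow] at this
    push_cast at this
    nlinarith
  have y2 := Real.log_nonneg x2
  have w1 : (τ : ℝ) ≤ 4 * J + 4 := by exact_mod_cast j2
  generalize Real.log (Real.log x) = lam at *
  rw [mul_div_assoc]
  gcongr
  rw [← Real.exp_log (show (0 : ℝ) < 2 ^ (25 * τ) / 2 ^ (τ * J) by positivity),
    Real.log_div (by positivity) (by positivity), Real.log_pow, Real.log_pow, Real.exp_le_exp]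
  push_cast
  have a1 : lam ^ 2 ≤ (3 * τ) ^ 2 := by gcongr
  have a2 : (τ : ℝ) * τ ≤ τ * (5 * (J - 25)) := by gcongr; linarith
  have a3 : (0 : ℝ) ≤ τ * (J - 25) := by nlinarith
  nlinarith

end Pool.Agent.Lib.MP_df8f2d_nt.Cnt
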