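import Pool.Agent.Lib.MP_df8f2d_nt.Cnt.Sums

/-!
The finite form of the bound for the number of solutions of `3 φ n = 2 n + 2`.
-/

namespace Pool.Agent.Lib.MP_df8f2d_nt.Cnt

open Finset

theorem Sol.card_le {S : Finset ℕ} (h : Sol S) {N : ℕ} (hN : pr S < 2 ^ N) : S.card ≤ N :=
  ((Nat.pow_lt_pow_iff_right one_lt_two).1
    ((pow_card_le_prod S (fun p => p) 2 fun p hp => (h.1 p hp).two_le).trans_lt hN)).le

theorem cell_real {E Y H Q K x Θ R : ℝ} (hH : 0 < H) (hQ : 0 < Q) (hΘ : 0 < Θ) (hR : 0 ≤ R)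
    (hY : 0 ≤ Y) (hK : 0 ≤ K) (h1 : E ^ 2 * Q ≤ 2 * K * H ^ 2) (h2 : Y ≤ x)
    (h3 : Θ * Y ≤ 8 * H ^ 2 * Q) (h4 : Θ * H ^ 2 ≤ 2 * x * Q) (h5 : K * x ≤ Θ * R ^ 2) :
    (3 * Y / H ^ 2 + 1) * E ≤ 14 * R := by
  have hx : 0 ≤ x := hY.trans h2
  have a1 : E ≤ 2 * R := by
    refine le_of_sq_le_sq ?_ (by positivity)
    refine le_of_mul_le_mul_right (a := Q * Θ) ?_ (by positivity)
    calc E ^ 2 * (Q * Θ) = E ^ 2 * Q * Θ := by ring
      _ ≤ 2 * K * H ^ 2 * Θ := by gcongr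
      _ = 2 * K * (Θ * H ^ 2) := by ring
      _ ≤ 2 * K * (2 * x * Q) := by gcongr
      _ = 4 * Q * (K * x) := by ring
      _ ≤ 4 * Q * (Θ * R ^ 2) := by gcongr
      _ = _ := by ring
  have a2 : E * Y ≤ 4 * R * H ^ 2 := by
    refine le_of_sq_le_sq ?_ (by positivity)
    refine le_of_mul_le_mul_right (a := Q * Θ) ?_ (by positivity)
    calc (E * Y) ^ 2 * (Q * Θ) = E ^ 2 * Q * (Y * (Θ * Y)) := by ring
      _ ≤ 2 * K * H ^ 2 * (x * (8 * H ^ 2 * Q)) := by gcongr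
      _ = 16 * H ^ 4 * Q * (K * x) := by ring
      _ ≤ 16 * H ^ 4 * Q * (Θ * R ^ 2) := by gcongr
      _ = _ := by ring
  have a3 : 3 * Y / H ^ 2 * E ≤ 12 * R := by
    rw [div_mul_eq_mul_div, div_le_iff₀ (by positivity)]
    linarith
  linarith

theorem nonrigid {C : Finset (Finset ℕ)} {x N Θ : ℕ} {R : ℝ} (hx : x < 2 ^ N) (hN : 0 < N)
    (hΘ : 5 * N ≤ Θ) (hR : 0 ≤ R) (hR' : ((5 * N) ^ 3 : ℕ) * (x : ℝ) ≤ Θ * R ^ 2)
    (hC : ∀ S ∈ C, Sol S ∧ pr S ≤ x ∧ ¬Rigid Θ S) :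
    (C.card : ℝ) ≤ (N + 1) ^ 3 * (14 * R) := by
  have h1 : ∀ S ∈ C, ∃ t : ℕ × Finset ℕ × Finset ℕ, t.1 ∈ S ∧ t.2.1 ⊆ S ∧ lo S t.1 ⊆ t.2.1 ∧
      t.2.2 ⊆ lo S t.1 ∧ Θ * pr t.2.1 ^ 2 ≤ pr S * t.1 ∧ Θ * pr S ≤ pr t.2.1 ^ 2 * t.1 ∧
      5 * N * pr t.2.2 ^ 2 ≤ 2 * 2 ^ Nat.log 2 t.1 ∧
      2 * 2 ^ Nat.log 2 t.1 ≤ (5 * N) ^ 3 * pr t.2.2 ^ 2 := fun S hS => by
    obtain ⟨a1, a2, a3⟩ := hC S hS
    simp only [Rigid, not_forall, not_not] at a3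
    obtain ⟨q, hq, b1, X, b2, b3, b4, b5⟩ := a3
    obtain ⟨M, c1, c2⟩ := greedy (5 * N) (2 * 2 ^ Nat.log 2 q) (lo S q)
    have hg := a1.gap (a1.card_le (a2.trans_lt hx))
    have c3 := Nat.lt_pow_succ_log_self one_lt_two q
    have c4 := Nat.pow_log_le_self 2 (a1.pos q hq).ne'
    rw [pow_succ'] at c3
    refine ⟨(q, X, M), hq, b2, b3, c1, b4, b5, greedy_le c1 c2 (hΘ.trans (b1.trans c3.le)), ?_⟩
    by_cases e : M = lo S q
    · have c5 := hg q hq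
      have c6 : 0 < pr (lo S q) := pr_pos fun a ha => a1.pos a (mem_lo.1 ha).1
      simp only [e]
      calc _ ≤ 2 * 1 * (5 * N) * (1 * pr (lo S q)) := by nlinarith
        _ ≤ 5 * N * (5 * N) * (5 * N) * (pr (lo S q) * pr (lo S q)) := by gcongr <;> omega
        _ = _ := by ring
    · refine (greedy_ge (K := 5 * N) c1 c2 (fun a ha => ?_) e).le.trans_eq (by ring)
      have : lo (lo S q) a = lo S a := by
        ext b
        simp only [mem_lo]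
        exact ⟨fun h => ⟨h.1.1, h.2⟩, fun h => ⟨⟨h.1, h.2.trans (mem_lo.1 ha).2⟩, h.2⟩⟩
      rw [this]
      exact hg a (mem_lo.1 ha).1
  choose! t g1 g2 g3 g4 g5 g6 g7 g8 using h1
  have hpX : ∀ S ∈ C, 0 < pr (t S).2.1 := fun S hS =>
    pr_pos fun a ha => (hC S hS).1.pos a (g2 S hS ha)
  have hlog : ∀ S ∈ C, ∀ d, d ∣ pr S → Nat.log 2 d ∈ range (N + 1) := fun S hS d hd =>
    mem_range.2 (Nat.log_lt_of_lt_pow' (by omega) (((Nat.le_of_dvd (pr_pos (hC S hS).1.pos)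
      hd).trans (hC S hS).2.1).trans_lt (hx.trans (Nat.pow_lt_pow_right one_lt_two (by omega)))))
  have h2 : ∀ S ∈ C, (Nat.log 2 (t S).1, (lo S (t S).1 \ (t S).2.2).card,
      Nat.log 2 (pr (t S).2.1)) ∈ range (N + 1) ×ˢ range (N + 1) ×ˢ range (N + 1) := fun S hS =>
    mem_product.2 ⟨hlog S hS _ (dvd_prod_of_mem _ (g1 S hS)), mem_product.2 ⟨mem_range.2
      (Nat.lt_succ_of_le ((card_le_card (sdiff_subset.trans (filter_subset _ _))).trans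
        ((hC S hS).1.card_le ((hC S hS).2.1.trans_lt hx)))),
      hlog S hS _ (Dvd.intro_left _ (pr_sdiff (g2 S hS)))⟩⟩
  rw [card_eq_sum_card_fiberwise h2, Nat.cast_sum]
  refine (sum_le_card_nsmul _ _ (14 * R) ?_).trans_eq (by simp [pow_three])
  rintro ⟨j, k, l⟩ -
  set D := C.filter fun S => (Nat.log 2 (t S).1, (lo S (t S).1 \ (t S).2.2).card,
      Nat.log 2 (pr (t S).2.1)) = (j, k, l) with hD
  have hm : ∀ S ∈ D, S ∈ C ∧ Nat.log 2 (t S).1 = j ∧ (lo S (t S).1 \ (t S).2.2).card = k ∧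
      Nat.log 2 (pr (t S).2.1) = l := fun S hS => by simpa [hD] using hS
  clear_value D
  rcases D.eq_empty_or_nonempty with rfl | hne
  · simpa using hR
  obtain ⟨S₀, s0, m0⟩ := exists_max_image D (fun S => pr ((t S).2.1 \ (t S).2.2)) hne
  obtain ⟨S₁, s1, m1⟩ := exists_max_image D pr hne
  have hq : ∀ S ∈ D, 2 ^ j ≤ (t S).1 ∧ (t S).1 ≤ 2 * 2 ^ j ∧ 2 ^ l ≤ pr (t S).2.1 ∧
      pr (t S).2.1 ≤ 2 * 2 ^ l := fun S hS => by
    obtain ⟨a1, a2, -, a3⟩ := hm S hS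
    rw [← a2, ← a3, ← pow_succ', ← pow_succ']
    exact ⟨Nat.pow_log_le_self 2 ((hC S a1).1.pos _ (g1 S a1)).ne',
      (Nat.lt_pow_succ_log_self one_lt_two _).le, Nat.pow_log_le_self 2 (hpX S a1).ne',
      (Nat.lt_pow_succ_log_self one_lt_two _).le⟩
  have hl : ∀ S ∈ C, lo S (t S).1 \ (t S).2.2 = lo ((t S).2.1 \ (t S).2.2) (t S).1 :=
    fun S hS => by
      ext a
      simp only [mem_sdiff, mem_lo]
      exact ⟨fun h => ⟨⟨g3 S hS (mem_lo.2 h.1), h.2⟩, h.1.2⟩,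
        fun h => ⟨⟨g2 S hS h.1.1, h.2⟩, h.1.2⟩⟩
  have h3 : D.card ≤ (3 * pr S₁ / (2 ^ l) ^ 2 + 1) * (Icc 1 (pr ((t S₀).2.1 \ (t S₀).2.2))).card := by
    refine card_le_mul_card_image_of_maps_to (f := fun S => pr ((t S).2.1 \ (t S).2.2))
      (fun S hS => mem_Icc.2 ⟨pr_pos fun a ha => (hC S (hm S hS).1).1.pos a
        (g2 S (hm S hS).1 (mem_sdiff.1 ha).1), m0 S hS⟩) _ fun b _ => ?_
    rcases (D.filter fun S => pr ((t S).2.1 \ (t S).2.2) = b).eq_empty_or_nonempty with e | ⟨S, hS⟩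
    · simp [e]
    obtain ⟨a1, a2⟩ := mem_filter.1 hS
    obtain ⟨a3, -, a4, -⟩ := hm S a1
    refine fib (X := (t S).2.1) (fun T hT => (hC T (hm T (mem_filter.1 hT).1).1).1)
      (fun T hT => ?_) (fun T hT => m1 T (mem_filter.1 hT).1) (hq S a1).2.2.1 (by positivity)
    obtain ⟨b1, b2⟩ := mem_filter.1 hT
    obtain ⟨b3, b5, b4, -⟩ := hm T b1
    have e1 : (t S).2.1 \ (t S).2.2 = (t T).2.1 \ (t T).2.2 :=
      pr_inj (fun p hp => (hC S a3).1.1 p (g2 S a3 (mem_sdiff.1 hp).1))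
        (fun p hp => (hC T b3).1.1 p (g2 T b3 (mem_sdiff.1 hp).1)) (a2.trans b2.symm)
    have e2 : lo S (t S).1 \ (t S).2.2 = lo T (t T).1 \ (t T).2.2 := by
      rw [hl S a3, e1] at a4
      rw [hl T b3] at b4
      rw [hl S a3, hl T b3, e1]
      exact lo_eq_of_card (a4.trans b4.symm)
    have e3 := decode (hC S a3).1 (hC T b3).1 (g1 S a3) (g1 T b3) (hq S a1).1 (hq T b1).1
      ((hC S a3).1.card_le ((hC S a3).2.1.trans_lt hx))
      ((hC T b3).1.card_le ((hC T b3).2.1.trans_lt hx)) (by positivity) (g4 S a3) (g4 T b3) e2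
      ((hm S a1).2.1 ▸ g7 S a3) (b5 ▸ g7 T b3)
    rw [← sdiff_union_of_subset ((g4 S a3).trans (g3 S a3)), e1, e3,
      sdiff_union_of_subset ((g4 T b3).trans (g3 T b3))]
    exact g2 T b3
  rw [Nat.card_Icc, Nat.add_sub_cancel] at h3
  obtain ⟨c0, c1, -, -⟩ := hm S₀ s0
  obtain ⟨d0, -⟩ := hm S₁ s1
  obtain ⟨-, q2, q3, q4⟩ := hq S₀ s0
  obtain ⟨-, r2, -, r4⟩ := hq S₁ s1
  have k1 : pr ((t S₀).2.1 \ (t S₀).2.2) ^ 2 * 2 ^ j ≤ 2 * (5 * N) ^ 3 * (2 ^ l) ^ 2 := by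
    have a1 := Nat.mul_le_mul_left (pr ((t S₀).2.1 \ (t S₀).2.2) ^ 2) (c1 ▸ g8 S₀ c0)
    rw [← pr_sdiff ((g4 S₀ c0).trans (g3 S₀ c0))] at q4
    have a2 := Nat.mul_le_mul_left ((5 * N) ^ 3) (Nat.pow_le_pow_left q4 2)
    nlinarith
  have k2 : Θ * pr S₁ ≤ 8 * (2 ^ l) ^ 2 * 2 ^ j :=
    (g6 S₁ d0).trans ((Nat.mul_le_mul (Nat.pow_le_pow_left r4 2) r2).trans_eq (by ring))
  have k3 : Θ * (2 ^ l) ^ 2 ≤ 2 * x * 2 ^ j :=
    (Nat.mul_le_mul_left _ (Nat.pow_le_pow_left q3 2)).trans ((g5 S₀ c0).trans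
      ((Nat.mul_le_mul (hC S₀ c0).2.1 q2).trans_eq (by ring)))
  refine le_trans ?_ (cell_real (E := (pr ((t S₀).2.1 \ (t S₀).2.2) : ℕ)) (Y := (pr S₁ : ℕ))
    (H := (2 ^ l : ℕ)) (Q := (2 ^ j : ℕ)) (by positivity) (by positivity)
    (by exact_mod_cast (by omega : 0 < Θ)) hR (by positivity) (by positivity)
    (by exact_mod_cast k1) (by exact_mod_cast (hC S₁ d0).2.1) (by exact_mod_cast k2)
    (by exact_mod_cast k3) hR')
  refine (Nat.cast_le.2 h3).trans ?_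
  rw [Nat.cast_mul, Nat.cast_add, Nat.cast_one]
  gcongr
  exact Nat.cast_div_le.trans_eq (by push_cast; rfl)

/-- The finite bound. -/
theorem bound {C : Finset (Finset ℕ)} {x y N Θ v α Λ J L : ℕ} {R : ℝ} (hx : x < 2 ^ N)
    (hN : 0 < N) (hΘ : 5 * N ≤ Θ) (hR : 0 ≤ R) (hR' : ((5 * N) ^ 3 : ℕ) * (x : ℝ) ≤ Θ * R ^ 2)
    (hy : ∀ d, d ^ 2 ≤ (5 * N) ^ 2 * x → d ≤ y) (hL : y ≤ 2 ^ L) (hΛ : 0 < Λ)
    (hα : Θ ^ 2 * (5 * N) ^ 2 ≤ 2 ^ α) (hW : (5 * N) ^ 2 * Θ ^ 3 ≤ 2 ^ Λ)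
    (hC : ∀ S ∈ C, Sol S ∧ pr S ≤ x) :
    (C.card : ℝ) ≤ ((((2 ^ Λ) ^ (2 * v + 1)) ^ 16 ^ J) ^ 2 : ℕ) + (N + 1) ^ 3 * (14 * R) +
      (3 * (5 * N) ^ 2 + 1 : ℕ) * (y * (L + 1) / 2 ^ v +
        y * ((((2 * v : ℕ) + 1) * ((2 * α + 1) * (4 / Λ))) ^ J * (L + 1)) +
        y * ((((2 * v : ℕ) + 1) * ((2 * α + 1) * (4 / Λ))) ^ J * (L + 1))) := by
  classical
  set B := (((2 ^ Λ) ^ (2 * v + 1)) ^ 16 ^ J) ^ 2 with hB
  have h1 : (C.filter fun S => pr S ≤ B).card ≤ B := by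
    refine le_trans ?_ (show (Icc 1 B).card = B by simp).le
    exact card_le_card_of_injOn pr (fun S hS => mem_coe.2 (mem_Icc.2
      ⟨pr_pos (hC S (mem_filter.1 hS).1).1.pos, (mem_filter.1 hS).2⟩))
      fun S hS T hT e => pr_inj (hC S (mem_filter.1 hS).1).1.1 (hC T (mem_filter.1 hT).1).1.1 e
  have h2 := nonrigid (C := C.filter fun S => ¬Rigid Θ S) hx hN hΘ hR hR' fun S hS =>
    ⟨(hC S (mem_filter.1 hS).1).1, (hC S (mem_filter.1 hS).1).2, (mem_filter.1 hS).2⟩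
  have h3 := near (C := C.filter fun S => B < pr S ∧ Rigid Θ S) (K := 5 * N)
    (V := ((U y).filter fun F => v ≤ F.card) ∪
      V (fun T => pr T ^ 2) y (2 * v) (Θ ^ 2 * (5 * N) ^ 2) (2 ^ Λ) J ∪
      V (fun T => T.sup id) y (2 * v) (Θ ^ 2 * (5 * N) ^ 2) (2 ^ Λ) J)
    (fun S hS => (hC S (mem_filter.1 hS).1).1) fun S hS => by
      obtain ⟨a0, a1, a2⟩ := mem_filter.1 hS
      obtain ⟨a3, a4⟩ := hC S a0
      obtain ⟨F, b1, b2⟩ := greedy 1 (pr S) S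
      have hg := a3.gap (a3.card_le (a4.trans_lt hx))
      have hp := pr_pos a3.pos
      have hK : 1 ≤ (5 * N) ^ 2 := Nat.one_le_pow _ _ (by omega)
      have b3 := greedy_le b1 b2 hp
      have b4 : pr S ≤ (5 * N * pr F) ^ 2 := by
        by_cases e : F = S
        · rw [e, mul_pow]
          exact (Nat.le_self_pow two_ne_zero _).trans (Nat.le_mul_of_pos_left _ hK)
        · simpa using (greedy_ge b1 b2 hg e).le
      have b5 := pr_sdiff b1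
      have b6 : F ∈ U y := mem_U.2 ⟨fun p hp => a3.1 p (b1 hp), hy _ (by nlinarith)⟩
      have hF : 0 < pr F := pr_pos fun a ha => a3.pos a (b1 ha)
      have b7 : S \ F ∈ U y := by
        refine mem_U.2 ⟨fun p hp => a3.1 p (mem_sdiff.1 hp).1, hy _ ?_⟩
        refine le_of_mul_le_mul_right (a := pr F ^ 2) ?_ (by positivity)
        calc _ = pr S * pr S := by rw [← b5]; ring
          _ ≤ (5 * N * pr F) ^ 2 * x := Nat.mul_le_mul b4 a4
          _ = _ := by ring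
      have b8 : pr S ≤ (5 * N * pr (S \ F)) ^ 2 := by
        have : pr F ≤ pr (S \ F) := le_of_mul_le_mul_right (by nlinarith) hF
        calc pr S = 1 * (pr (S \ F) * pr F) := by rw [b5, one_mul]
          _ ≤ (5 * N) ^ 2 * (pr (S \ F) * pr (S \ F)) := by gcongr
          _ = _ := by ring
      by_cases hu : S.card ≤ 2 * v
      · rcases rigid_main a3.pos b1 b2 a2 hg (by omega) (by omega) hu hW a1 with b9 | b9
        · exact ⟨F, mem_union_left _ (mem_union_right _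
            (mem_filter.2 ⟨b6, (card_le_card b1).trans hu, b9⟩)), b1, b4⟩
        · exact ⟨S \ F, mem_union_right _
            (mem_filter.2 ⟨b7, (card_le_card sdiff_subset).trans hu, b9⟩), sdiff_subset, b8⟩
      by_cases hv : v ≤ F.card
      · exact ⟨F, mem_union_left _ (mem_union_left _ (mem_filter.2 ⟨b6, hv⟩)), b1, b4⟩
      refine ⟨S \ F, mem_union_left _ (mem_union_left _ (mem_filter.2 ⟨b7, ?_⟩)),
        sdiff_subset, b8⟩
      have := card_sdiff_add_card_eq_card b1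
      omega
  have h4 := many hL v
  have h5 := V_card (fun T => pr T ^ 2) (u := 2 * v) hL hΛ hα J
  have h5' := V_card (fun T => T.sup id) (u := 2 * v) hL hΛ hα J
  rw [← le_div_iff₀ (by positivity)] at h4
  have h6 : C ⊆ (C.filter fun S => pr S ≤ B) ∪ (C.filter fun S => ¬Rigid Θ S) ∪
      C.filter fun S => B < pr S ∧ Rigid Θ S := fun S hS => by
    simp only [mem_union, mem_filter, hS, true_and]
    by_cases h : pr S ≤ B
    · exact Or.inl (Or.inl h)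
    · by_cases h' : Rigid Θ S
      · exact Or.inr ⟨not_le.1 h, h'⟩
      · exact Or.inl (Or.inr h')
  have h7 := (card_le_card h6).trans ((card_union_le _ _).trans
    (Nat.add_le_add ((card_union_le _ _).trans (Nat.add_le_add_right h1 _))
      (h3.trans (Nat.mul_le_mul_left _ ((card_union_le _ _).trans
        (Nat.add_le_add_right (card_union_le _ _) _))))))
  refine (Nat.cast_le.2 h7).trans ?_
  rw [Nat.cast_add, Nat.cast_add, Nat.cast_mul, Nat.cast_add (card _ + card _),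
    Nat.cast_add (card _)]
  gcongr

end Pool.Agent.Lib.MP_df8f2d_nt.Cnt
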