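import Mathlib

/-!
Greedy divisors and the structure of rigid sets of primes.
-/

namespace Pool.Agent.Lib.MP_df8f2d_nt.Cnt

open Finset

/-- The product of the elements. -/
def pr (S : Finset ℕ) : ℕ := ∏ p ∈ S, p

/-- The elements below `q`. -/
def lo (S : Finset ℕ) (q : ℕ) : Finset ℕ := S.filter (· < q)

/-- The elements above `q`. -/
def hi (S : Finset ℕ) (q : ℕ) : Finset ℕ := S.filter (q < ·)

@[simp] theorem mem_lo {S : Finset ℕ} {q a : ℕ} : a ∈ lo S q ↔ a ∈ S ∧ a < q := mem_filter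

@[simp] theorem mem_hi {S : Finset ℕ} {q a : ℕ} : a ∈ hi S q ↔ a ∈ S ∧ q < a := mem_filter

theorem pr_pos {S : Finset ℕ} (h : ∀ a ∈ S, 0 < a) : 0 < pr S := prod_pos h

theorem pr_insert {S : Finset ℕ} {q : ℕ} (h : q ∉ S) : pr (insert q S) = q * pr S :=
  prod_insert h

theorem pr_sdiff {S T : Finset ℕ} (h : T ⊆ S) : pr (S \ T) * pr T = pr S := prod_sdiff h

theorem pr_lo_hi {S : Finset ℕ} {q : ℕ} (h : q ∉ S) : pr (lo S q) * pr (hi S q) = pr S := by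
  rw [← pr_sdiff (S := S) (T := hi S q) (filter_subset _ _)]
  congr 2
  ext a
  simp only [mem_lo, mem_sdiff, mem_hi, not_and, not_lt]
  exact ⟨fun ⟨h1, h2⟩ => ⟨h1, fun _ => h2.le⟩,
    fun ⟨h1, h2⟩ => ⟨h1, lt_of_le_of_ne (h2 h1) fun e => h (e ▸ h1)⟩⟩

theorem pr_le_pow {S : Finset ℕ} {q u : ℕ} (hq : 0 < q) (h : ∀ a ∈ S, a ≤ q) (hu : S.card ≤ u) :
    pr S ≤ q ^ u :=
  (prod_le_pow_card S _ q h).trans (Nat.pow_le_pow_right hq hu)

theorem lo_eq_of_card {S : Finset ℕ} {p q : ℕ} (h : (lo S p).card = (lo S q).card) :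
    lo S p = lo S q := by
  have key : ∀ {p q : ℕ}, p ≤ q → lo S p ⊆ lo S q := fun h a ha =>
    mem_lo.2 ⟨(mem_lo.1 ha).1, (mem_lo.1 ha).2.trans_le h⟩
  rcases le_total p q with h1 | h1
  · exact eq_of_subset_of_card_le (key h1) h.ge
  · exact (eq_of_subset_of_card_le (key h1) h.le).symm

theorem greedy (c T : ℕ) (S : Finset ℕ) :
    ∃ F ⊆ S, ∀ q ∈ S, (q ∈ F ↔ c * (q * pr (hi F q)) ^ 2 ≤ T) := by
  induction S using Finset.induction_on_min with
  | empty => exact ⟨∅, Subset.refl _, by simp⟩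
  | insert q S hq ih =>
    obtain ⟨F, hF, h⟩ := ih
    have hqF : q ∉ F := fun h => lt_irrefl _ (hq q (hF h))
    have e0 : hi F q = F := filter_true_of_mem fun a ha => hq a (hF ha)
    by_cases hc : c * (q * pr F) ^ 2 ≤ T
    · refine ⟨insert q F, insert_subset_insert _ hF, fun a ha => ?_⟩
      have e1 : hi (insert q F) a = hi F a := by
        refine filter_insert _ _ _ |>.trans (if_neg ?_)
        rcases mem_insert.1 ha with rfl | ha
        · exact lt_irrefl _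
        · exact (hq a ha).not_gt
      rw [e1]
      rcases mem_insert.1 ha with rfl | ha
      · simp [e0, hc]
      · rw [← h a ha, mem_insert]
        exact ⟨fun h => h.resolve_left (hq a ha).ne', Or.inr⟩
    · refine ⟨F, hF.trans (subset_insert _ _), fun a ha => ?_⟩
      rcases mem_insert.1 ha with rfl | ha
      · simp [e0, hc, hqF]
      · exact h a ha

theorem greedy_le {c T : ℕ} {S F : Finset ℕ} (hF : F ⊆ S)
    (h : ∀ q ∈ S, (q ∈ F ↔ c * (q * pr (hi F q)) ^ 2 ≤ T)) (hc : c ≤ T) :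
    c * pr F ^ 2 ≤ T := by
  rcases F.eq_empty_or_nonempty with rfl | hne
  · simpa [pr] using hc
  · have h1 := (h _ (hF (F.min'_mem hne))).1 (F.min'_mem hne)
    have h2 : insert (F.min' hne) (hi F (F.min' hne)) = F := by
      ext a
      simp only [mem_insert, mem_hi]
      exact ⟨fun h => h.elim (fun e => e ▸ F.min'_mem hne) And.left, fun h =>
        (F.min'_le a h).eq_or_lt.imp Eq.symm fun h' => ⟨h, h'⟩⟩
    rwa [← pr_insert (by simp), h2] at h1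

theorem greedy_ge {c T K : ℕ} {S F : Finset ℕ} (hF : F ⊆ S)
    (h : ∀ q ∈ S, (q ∈ F ↔ c * (q * pr (hi F q)) ^ 2 ≤ T))
    (hK : ∀ q ∈ S, q ≤ K * pr (lo S q)) (hne : F ≠ S) : T < c * (K * pr F) ^ 2 := by
  have hne' : (S \ F).Nonempty := sdiff_nonempty.2 fun h' => hne (Subset.antisymm hF h')
  obtain ⟨h1, h2⟩ := mem_sdiff.1 ((S \ F).min'_mem hne')
  set q := (S \ F).min' hne' with hq
  have h3 : lo S q = lo F q := by
    ext a
    simp only [mem_lo]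
    refine ⟨fun ⟨a1, a2⟩ => ⟨?_, a2⟩, fun ⟨a1, a2⟩ => ⟨hF a1, a2⟩⟩
    by_contra a3
    exact ((S \ F).min'_le a (mem_sdiff.2 ⟨a1, a3⟩)).not_gt a2
  refine (not_le.1 fun h4 => h2 ((h q h1).2 h4)).trans_le ?_
  rw [← pr_lo_hi h2, ← mul_assoc, ← h3]
  gcongr
  exact hK q h1

/-- No divisor that contains all primes below some `q ≥ Θ` is close to the square root. -/
def Rigid (Θ : ℕ) (S : Finset ℕ) : Prop :=
  ∀ q ∈ S, Θ ≤ q → ∀ X ⊆ S, lo S q ⊆ X →
    ¬(Θ * pr X ^ 2 ≤ pr S * q ∧ Θ * pr S ≤ pr X ^ 2 * q)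

/-- The large elements of `F` whose size is nearly fixed by the smaller ones. -/
def sp (z : Finset ℕ → ℕ) (A W : ℕ) (F : Finset ℕ) : Finset ℕ :=
  F.filter fun p => W ≤ p ∧ z (lo F p) < A * p ∧ p < A * z (lo F p)

theorem growth {W u : ℕ} (hW : 0 < W) (G : Finset ℕ) (hu : G.card ≤ u)
    (h : ∀ q ∈ G, W ≤ q → q ≤ W * pr (lo G q) ^ 2) :
    pr G ≤ (W ^ (u + 1)) ^ 4 ^ (G.filter (W ≤ ·)).card := by
  induction G using Finset.induction_on_max with
  | empty => exact Nat.one_le_pow _ _ (by positivity)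
  | insert q G hq ih =>
    have hqG : q ∉ G := fun h => lt_irrefl _ (hq q h)
    by_cases hWq : W ≤ q
    · have e : ∀ a ≤ q, lo (insert q G) a = lo G a := fun a ha =>
        (filter_insert _ _ _).trans (if_neg ha.not_gt)
      have h1 := ih ((card_le_card (subset_insert _ _)).trans hu) fun a ha hWa =>
        e a (hq a ha).le ▸ h a (mem_insert_of_mem ha) hWa
      have h2 := h q (mem_insert_self _ _) hWq
      rw [e q le_rfl, show lo G q = G from filter_true_of_mem hq] at h2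
      rw [pr_insert hqG, filter_insert, if_pos hWq,
        card_insert_of_notMem fun h => hqG (mem_filter.1 h).1, pow_succ 4, pow_mul]
      have h3 : W ≤ (W ^ (u + 1)) ^ 4 ^ (G.filter (W ≤ ·)).card :=
        (Nat.le_self_pow (by omega) W).trans (Nat.le_self_pow (by positivity) _)
      generalize (W ^ (u + 1)) ^ 4 ^ (G.filter (W ≤ ·)).card = Y at *
      calc q * pr G ≤ Y * Y ^ 2 * Y := Nat.mul_le_mul (h2.trans (by gcongr)) h1
        _ = _ := by ring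
    · refine (pr_le_pow hW (fun a ha => ?_) (hu.trans u.le_succ)).trans
        (Nat.le_self_pow (by positivity) _)
      rcases mem_insert.1 ha with rfl | ha
      · exact (not_le.1 hWq).le
      · exact ((hq a ha).trans (not_le.1 hWq)).le

section rigid

variable {Θ K : ℕ} {S F : Finset ℕ} (h0 : ∀ a ∈ S, 0 < a) (hF : F ⊆ S)
  (h : ∀ q ∈ S, (q ∈ F ↔ 1 * (q * pr (hi F q)) ^ 2 ≤ pr S)) (hR : Rigid Θ S)

include h0 hF h hR

theorem rigid_aux {q : ℕ} (hq : q ∈ S) (hΘ : Θ ≤ q) :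
    (q ∉ F → pr S < Θ * q * pr (hi F q) ^ 2) ∧
      (q ∈ F → q * (q * pr (hi F q)) ^ 2 < Θ * pr S) := by
  have h1 : insert q (hi F q) ⊆ S := insert_subset hq ((filter_subset _ _).trans hF)
  have h2 := pr_sdiff h1
  rw [pr_insert (by simp)] at h2
  have h3 := hR q hq hΘ (S \ insert q (hi F q)) sdiff_subset fun a ha => by
    obtain ⟨a1, a2⟩ := mem_lo.1 ha
    simp only [mem_sdiff, mem_insert, mem_hi, not_or, not_and, not_lt]
    exact ⟨a1, a2.ne, fun _ => a2.le⟩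
  have h4 := h q hq
  have h5 : 0 < pr (S \ insert q (hi F q)) := pr_pos fun a ha => h0 a (mem_sdiff.1 ha).1
  have h6 : 0 < pr (hi F q) := pr_pos fun a ha => h0 a (hF (mem_hi.1 ha).1)
  have h7 := h0 q hq
  rw [← h2] at h3 h4 ⊢
  generalize pr (S \ insert q (hi F q)) = y at *
  generalize pr (hi F q) = g at *
  have h8 : 0 < q * g := by positivity
  refine ⟨fun hn => ?_, fun hp => ?_⟩
  · have a1 : y < q * g := by
      by_contra! a
      exact hn (h4.2 (by nlinarith))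
    have a2 : Θ * y ^ 2 ≤ y * (q * g) * q := by
      calc Θ * y ^ 2 = y * y * Θ := by ring
        _ ≤ y * (q * g) * q := by gcongr
    have a3 : y ^ 2 * q < Θ * (y * (q * g)) := not_le.1 fun a => h3 ⟨a2, a⟩
    have a4 : y < Θ * g := by
      refine lt_of_mul_lt_mul_left (a := y * q) ?_ (Nat.zero_le _)
      nlinarith
    calc y * (q * g) < Θ * g * (q * g) := by gcongr
      _ = _ := by ring
  · have a1 : q * g ≤ y := by
      by_contra! a
      have := h4.1 hp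
      nlinarith
    have a2 : Θ * (y * (q * g)) ≤ y ^ 2 * q := by
      calc Θ * (y * (q * g)) ≤ q * (y * y) := by gcongr
        _ = _ := by ring
    have a3 : y * (q * g) * q < Θ * y ^ 2 := not_le.1 fun a => h3 ⟨a, a2⟩
    have a4 : q * g * q < Θ * y := by
      refine lt_of_mul_lt_mul_left (a := y) ?_ (Nat.zero_le _)
      nlinarith
    calc q * (q * g) ^ 2 = q * g * q * (q * g) := by ring
      _ < Θ * y * (q * g) := by gcongr
      _ = _ := by ring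

theorem rigid_step (hK : ∀ q ∈ S, q ≤ K * pr (lo S q)) (hK0 : 0 < K) {q p : ℕ} (hq : q ∈ S)
    (hqF : q ∉ F) (hp : p ∈ F) (hqp : q < p) (hmin : ∀ a ∈ F, q < a → p ≤ a)
    (hbig : K ^ 2 * Θ ^ 3 ≤ q) :
    pr (lo F p) ^ 2 < Θ * p ∧ p < Θ * K ^ 2 * pr (lo F p) ^ 2 ∧ p < Θ ^ 2 * q ∧
      p < K ^ 2 * Θ ^ 3 * pr (lo (S \ F) q) ^ 2 := by
  have hK2 : 1 ≤ K ^ 2 := Nat.one_le_pow _ _ hK0
  have hΘ3 : Θ ^ 3 ≤ q := le_trans (Nat.le_mul_of_pos_left _ hK2) hbig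
  have hΘp : Θ ≤ p := (Nat.le_self_pow (by norm_num) Θ).trans (hΘ3.trans hqp.le)
  have d1 := greedy_le hF h (pr_pos h0)
  have d2 := greedy_ge hF h hK fun e => hqF (e ▸ hq)
  obtain ⟨r, ⟨hr, hrF, hrp, hrm⟩, hleast⟩ := WellFounded.has_min (wellFounded_lt (α := ℕ))
    {r | r ∈ S ∧ r ∉ F ∧ r < p ∧ ∀ a ∈ F, r < a → p ≤ a} ⟨q, hq, hqF, hqp, hmin⟩
  have e1 : hi F r = insert p (hi F p) := by
    ext a
    simp only [mem_hi, mem_insert]
    exact ⟨fun ⟨a1, a2⟩ => (hrm a a1 a2).eq_or_lt.imp Eq.symm fun h => ⟨a1, h⟩,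
      fun a1 => a1.elim (fun e => e ▸ ⟨hp, hrp⟩) fun a2 => ⟨a2.1, hrp.trans a2.2⟩⟩
  have e2 : lo F r = lo F p := by
    ext a
    simp only [mem_lo]
    refine ⟨fun a1 => ⟨a1.1, a1.2.trans hrp⟩, fun ⟨a1, a2⟩ => ⟨a1, ?_⟩⟩
    by_contra! a3
    exact (hrm a a1 (lt_of_le_of_ne a3 fun e => hrF (e ▸ a1))).not_gt a2
  have e3 : lo S r \ lo F r = lo (S \ F) r := by
    ext a
    simp only [mem_sdiff, mem_lo]
    tauto
  have e4 := pr_sdiff (S := lo S r) (T := lo F r) (filter_subset_filter _ hF)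
  have r2 := (rigid_aux h0 hF h hR (hF hp) hΘp).2 hp
  have r0 := not_le.1 fun a => hrF ((h r hr).2 a)
  have hd := pr_lo_hi hrF
  rw [← pr_insert (by simp), ← e1] at r2
  have hg : 0 < pr (hi F r) := pr_pos fun a ha => h0 a (hF (mem_hi.1 ha).1)
  have hΘr : Θ ≤ r := by
    by_contra! a
    have a1 : p * pr (hi F r) ^ 2 < Θ ^ 3 * pr (hi F r) ^ 2 := by
      calc _ < Θ * pr S := r2
        _ ≤ Θ * (1 * (Θ * pr (hi F r)) ^ 2) := by
          refine Nat.mul_le_mul_left _ (r0.le.trans ?_)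
          gcongr
        _ = _ := by ring
    exact (lt_of_mul_lt_mul_right a1 (Nat.zero_le _)).not_ge (hΘ3.trans hqp.le)
  have r1 := (rigid_aux h0 hF h hR hr hΘr).1 hrF
  have k1 := hK r hr
  rw [← e4, e3, e2] at k1
  rw [← hd, e2] at d1 d2
  generalize pr (hi F r) = g at *
  generalize pr (lo F p) = l at *
  have hg2 : 0 ≤ g ^ 2 := Nat.zero_le _
  have s1 : l ^ 2 < Θ * r := lt_of_mul_lt_mul_right (by nlinarith) hg2
  have s2 : p < Θ * K ^ 2 * l ^ 2 := by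
    refine lt_of_mul_lt_mul_right (r2.trans_le ?_) hg2
    calc Θ * pr S ≤ Θ * (1 * (K * (l * g)) ^ 2) := Nat.mul_le_mul_left _ d2.le
      _ = _ := by ring
  have s3 : p < Θ ^ 2 * r := by
    refine lt_of_mul_lt_mul_right (r2.trans_le ?_) hg2
    calc Θ * pr S ≤ Θ * (Θ * r * g ^ 2) := Nat.mul_le_mul_left _ r1.le
      _ = _ := by ring
  have s4 : p < K ^ 2 * Θ ^ 3 * pr (lo (S \ F) r) ^ 2 := by
    generalize pr (lo (S \ F) r) = y at *
    have a1 : r ≤ K ^ 2 * Θ * y ^ 2 := by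
      refine le_of_mul_le_mul_left (a := r) ?_ (h0 r hr)
      calc r * r ≤ (K * (y * l)) * (K * (y * l)) := Nat.mul_le_mul k1 k1
        _ = K ^ 2 * y ^ 2 * l ^ 2 := by ring
        _ ≤ K ^ 2 * y ^ 2 * (Θ * r) := Nat.mul_le_mul_left _ s1.le
        _ = _ := by ring
    calc p < Θ ^ 2 * r := s3
      _ ≤ Θ ^ 2 * (K ^ 2 * Θ * y ^ 2) := Nat.mul_le_mul_left _ a1
      _ = _ := by ring
  have hrq : r ≤ q := not_lt.1 (hleast q ⟨hq, hqF, hqp, hmin⟩)
  refine ⟨s1.trans_le (Nat.mul_le_mul_left _ hrp.le), s2, s3.trans_le (Nat.mul_le_mul_left _ hrq),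
    s4.trans_le ?_⟩
  gcongr
  exact Nat.le_of_dvd (pr_pos fun a ha => h0 a (mem_sdiff.1 (mem_lo.1 ha).1).1)
    (prod_dvd_prod_of_subset _ _ _ (monotone_filter_right _ fun a _ ha => ha.trans_le hrq))

theorem rigid_up (hK : ∀ q ∈ S, q ≤ K * pr (lo S q)) (hK0 : 0 < K) {q : ℕ} (a3 : q ∈ S)
    (a4 : q ∉ F) (hbig : K ^ 2 * Θ ^ 3 ≤ q) :
    ∃ p, p ∈ F ∧ q < p ∧ ∀ a ∈ F, q < a → p ≤ a := by
  have hK2 : 1 ≤ K ^ 2 := Nat.one_le_pow _ _ hK0
  have hp : (hi F q).Nonempty := by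
    rw [nonempty_iff_ne_empty]
    intro e
    have r1 := (rigid_aux h0 hF h hR a3 ((Nat.le_self_pow (by norm_num) Θ).trans
      ((Nat.le_mul_of_pos_left _ hK2).trans hbig))).1 a4
    have r2 : q * pr (lo S q) ≤ pr S := by
      have t := pr_sdiff (S := S) (T := insert q (lo S q)) (insert_subset a3 (filter_subset _ _))
      rw [pr_insert (by simp)] at t
      rw [← t]
      exact Nat.le_mul_of_pos_left _ (pr_pos fun a ha => h0 a (mem_sdiff.1 ha).1)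
    have r3 := hK q a3
    rw [e] at r1
    simp only [pr, prod_empty, one_pow, mul_one] at r1
    change pr S < _ at r1
    have r4 : pr (lo S q) < Θ := lt_of_mul_lt_mul_left (a := q) (by nlinarith) (Nat.zero_le _)
    have : q < K ^ 2 * Θ ^ 3 := by
      calc q ≤ K * pr (lo S q) := r3
        _ < K * Θ := by gcongr
        _ ≤ _ := Nat.mul_le_mul (Nat.le_self_pow (by norm_num) K) (Nat.le_self_pow (by norm_num) Θ)
    omega
  obtain ⟨b1, b2⟩ := mem_hi.1 ((hi F q).min'_mem hp)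
  exact ⟨_, b1, b2, fun a a1 a2 => min'_le _ a (mem_hi.2 ⟨a1, a2⟩)⟩

theorem rigid_main (hK : ∀ q ∈ S, q ≤ K * pr (lo S q)) (hK0 : 0 < K) (hΘ0 : 1 < Θ) {u W J : ℕ}
    (hu : S.card ≤ u) (hW : K ^ 2 * Θ ^ 3 ≤ W) (hn : ((W ^ (u + 1)) ^ 16 ^ J) ^ 2 < pr S) :
    J ≤ (sp (fun T => pr T ^ 2) (Θ ^ 2 * K ^ 2) W F).card ∨
      J ≤ (sp (fun T => T.sup id) (Θ ^ 2 * K ^ 2) W (S \ F)).card := by
  have hK2 : 1 ≤ K ^ 2 := Nat.one_le_pow _ _ hK0
  have hΘ2 : Θ ≤ Θ ^ 2 := Nat.le_self_pow two_ne_zero Θ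
  have hA : Θ ^ 2 ≤ Θ ^ 2 * K ^ 2 := Nat.le_mul_of_pos_right _ hK2
  have hW0 : 0 < W := lt_of_lt_of_le (by positivity) hW
  have d1 := greedy_le hF h (pr_pos h0)
  have e1 := pr_sdiff hF
  have d3 : pr S ≤ pr (S \ F) ^ 2 := by
    have : pr F ≤ pr (S \ F) := by
      refine le_of_mul_le_mul_right (a := pr F) ?_ (pr_pos fun a ha => h0 a (hF ha))
      rw [e1]
      nlinarith
    rw [← e1, pow_two]
    exact Nat.mul_le_mul_left _ this
  have h1 : ∀ q ∈ (S \ F).filter (W ≤ ·), ∃ p, (p ∈ F ∧ q < p ∧ ∀ a ∈ F, q < a → p ≤ a) ∧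
      pr (lo F p) ^ 2 < Θ * p ∧ p < Θ * K ^ 2 * pr (lo F p) ^ 2 ∧ p < Θ ^ 2 * q ∧
        p < K ^ 2 * Θ ^ 3 * pr (lo (S \ F) q) ^ 2 := fun q hq => by
    obtain ⟨a1, a2⟩ := mem_filter.1 hq
    obtain ⟨a3, a4⟩ := mem_sdiff.1 a1
    obtain ⟨p, b1, b2, b3⟩ := rigid_up h0 hF h hR hK hK0 a3 a4 (hW.trans a2)
    exact ⟨p, ⟨b1, b2, b3⟩, rigid_step h0 hF h hR hK hK0 a3 a4 b1 b2 b3 (hW.trans a2)⟩
  choose! g g1 g2 g3 g4 g5 using h1
  have h2 := growth hW0 (S \ F) ((card_le_card sdiff_subset).trans hu) fun q hq hWq =>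
    ((g1 q (mem_filter.2 ⟨hq, hWq⟩)).2.1.trans (g5 q (mem_filter.2 ⟨hq, hWq⟩))).le.trans
      (Nat.mul_le_mul_right _ hW)
  have h3 : 2 * J ≤ ((S \ F).filter (W ≤ ·)).card := by
    by_contra! a
    refine hn.not_ge (d3.trans (Nat.pow_le_pow_left (h2.trans
      (Nat.pow_le_pow_right (by positivity) ?_)) 2))
    rw [show 16 = 4 ^ 2 from rfl, ← pow_mul]
    exact Nat.pow_le_pow_right (by norm_num) a.le
  have key : ∀ q ∈ (S \ F).filter (W ≤ ·), ∀ q' ∈ (S \ F).filter (W ≤ ·), q < q' → g q = g q' →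
      q' ∈ sp (fun T => T.sup id) (Θ ^ 2 * K ^ 2) W (S \ F) := fun q hq q' hq' hlt e => by
    have a1 : q ≤ (lo (S \ F) q').sup id :=
      le_sup (f := id) (mem_lo.2 ⟨(mem_filter.1 hq).1, hlt⟩)
    have a2 : (lo (S \ F) q').sup id < q' :=
      (Finset.sup_lt_iff (Nat.zero_lt_of_lt hlt)).2 fun a ha => (mem_lo.1 ha).2
    refine mem_filter.2 ⟨(mem_filter.1 hq').1, (mem_filter.1 hq').2,
      a2.trans_le (Nat.le_mul_of_pos_left _ (by positivity)), ?_⟩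
    exact ((g1 q' hq').2.1.trans (e ▸ g4 q hq)).trans_le (Nat.mul_le_mul hA a1)
  have h4 : (((S \ F).filter (W ≤ ·)) \
      sp (fun T => T.sup id) (Θ ^ 2 * K ^ 2) W (S \ F)).card ≤
      (sp (fun T => pr T ^ 2) (Θ ^ 2 * K ^ 2) W F).card := by
    refine card_le_card_of_injOn g (fun q hq => ?_) fun q hq q' hq' e => ?_
    · have a := (mem_sdiff.1 hq).1
      exact mem_filter.2 ⟨(g1 q a).1, (mem_filter.1 a).2.trans (g1 q a).2.1.le,
        (g2 q a).trans_le (Nat.mul_le_mul_right _ (hΘ2.trans hA)),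
        (g3 q a).trans_le (by gcongr)⟩
    · obtain ⟨a1, a2⟩ := mem_sdiff.1 hq
      obtain ⟨a3, a4⟩ := mem_sdiff.1 hq'
      rcases lt_trichotomy q q' with hlt | hlt | hlt
      · exact absurd (key q a1 q' a3 hlt e) a4
      · exact hlt
      · exact absurd (key q' a3 q a1 hlt e.symm) a2
  have h5 := le_card_sdiff (sp (fun T => T.sup id) (Θ ^ 2 * K ^ 2) W (S \ F))
    ((S \ F).filter (W ≤ ·))
  omega

end rigid

end Pool.Agent.Lib.MP_df8f2d_nt.Cnt
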