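import Pool.Agent.Lib.MP_df8f2d_nt.Main
import Pool.Agent.Lib.MP_df8f2d_nt.Cnt.Bound

/-!
Reduction of `g (g m) = 2 m` to the equation `3 φ n = 2 n + 2`.
-/

open scoped Nat

namespace Pool.Agent.Lib.MP_df8f2d_nt.Cnt

open Finset

theorem two_tot {n : ℕ} (h : 2 ∣ n) (h0 : n ≠ 0) : 2 * φ n ≤ n := by
  have h1 : φ n * pr n.primeFactors = n * ph n.primeFactors := Nat.totient_mul_prod_primeFactors n
  have h2 : {2} ⊆ n.primeFactors := by simp [h, h0, Nat.prime_two]
  have h3 := ph_le (n.primeFactors \ {2})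
  have h4 : 0 < pr (n.primeFactors \ {2}) :=
    pr_pos fun a ha => (Nat.prime_of_mem_primeFactors (mem_sdiff.1 ha).1).pos
  rw [← pr_sdiff h2, ← ph_sdiff h2] at h1
  simp only [pr, ph, prod_singleton] at h1 h3 h4
  refine le_of_mul_le_mul_right ?_ h4
  have := Nat.mul_le_mul_left n h3
  nlinarith

theorem sol_of {n : ℕ} (h : 3 * φ n = 2 * n + 2) :
    Sol n.primeFactors ∧ pr n.primeFactors = n := by
  have h0 : n ≠ 0 := by rintro rfl; simp at h
  have h1 : Squarefree n := Nat.squarefree_iff_prime_squarefree.2 fun p hp hd => by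
    have a1 : p ∣ φ n := by
      refine Dvd.dvd.trans ?_ (Nat.totient_dvd_of_dvd hd)
      rw [← pow_two, Nat.totient_prime_pow_succ hp, pow_one]
      exact Dvd.intro _ rfl
    have a2 : p ∣ n := (Dvd.intro _ rfl).trans hd
    have a3 : p ∣ 2 := (Nat.dvd_add_right (a2.mul_left 2)).1 (h ▸ a1.mul_left 3)
    obtain rfl := (Nat.prime_dvd_prime_iff_eq hp Nat.prime_two).1 a3
    have := two_tot a2 h0
    omega
  have h2 : pr n.primeFactors = n := Nat.prod_primeFactors_of_squarefree h1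
  have h3 : φ n * pr n.primeFactors = n * ph n.primeFactors := Nat.totient_mul_prod_primeFactors n
  rw [h2, mul_comm] at h3
  refine ⟨⟨fun p hp => Nat.prime_of_mem_primeFactors hp, ?_⟩, h2⟩
  rw [h2, ← Nat.eq_of_mul_eq_mul_left (Nat.pos_of_ne_zero h0) h3, h]

theorem tot_two_pow {a u : ℕ} (hu : Odd u) : φ (2 ^ (a + 1) * u) = 2 ^ a * φ u := by
  rw [Nat.totient_mul ((Nat.coprime_two_left.2 hu).pow_left _),
    Nat.totient_prime_pow_succ Nat.prime_two]
  simp

theorem red_core {u w : ℕ} (hu : Odd u) (hw : Odd w) (h1 : w ≠ 1) (e1 : 2 * u + φ u = 2 * w)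
    (e2 : 2 * w + φ w = 4 * u) : 3 * φ u = 2 * u + 2 ∧ 3 * w = 4 * u + 1 := by
  obtain ⟨p, t, hp, rfl⟩ := prime_pow_of_tot hw h1 (by
    obtain ⟨k, hk⟩ := hw
    omega)
  rw [Nat.totient_prime_pow_succ hp] at e2
  have hp2 := hp.two_le
  rcases t with _ | t
  · simp only [zero_add, pow_one, pow_zero, one_mul] at e1 e2 ⊢
    omega
  exfalso
  obtain ⟨q, rfl⟩ : ∃ q, p = q + 1 := ⟨p - 1, by omega⟩
  rw [Nat.add_sub_cancel] at e2
  have hc : ((q + 1) ^ (t + 1)).Coprime 4 :=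
    (Nat.Coprime.pow_right 2 (Nat.coprime_two_right.2 (Nat.odd_pow_iff (by omega) |>.1 hw))).pow_left _
  obtain ⟨y, rfl⟩ : (q + 1) ^ (t + 1) ∣ u := hc.dvd_of_dvd_mul_left
    ⟨2 * (q + 1) + q, by rw [← e2]; ring⟩
  have hy : 4 * y = 3 * q + 2 := mul_left_cancel₀ (a := (q + 1) ^ (t + 1)) (by positivity)
    (by rw [mul_left_comm, ← e2]; ring)
  have hy0 : 0 < y := Nat.pos_of_mul_pos_left (hy ▸ Nat.succ_pos _ : 0 < 4 * y)
  have hc' : (q + 1).Coprime y :=
    (Nat.Prime.coprime_iff_not_dvd hp).2 (Nat.not_dvd_of_pos_of_lt hy0 (by omega))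
  rw [Nat.totient_mul (hc'.pow_left _), Nat.totient_prime_pow_succ hp, Nat.add_sub_cancel] at e1
  have e3 : 2 * ((q + 1) * y) + q * φ y = 2 * ((q + 1) * (q + 1)) :=
    mul_left_cancel₀ (a := (q + 1) ^ t) (by positivity) (by
      calc _ = 2 * ((q + 1) ^ (t + 1) * y) + (q + 1) ^ t * q * φ y := by ring
        _ = _ := by rw [e1]; ring)
  have e4 : q + 1 ∣ q * φ y := (Nat.dvd_add_right ((Dvd.intro _ rfl).mul_left 2)).1
    (e3 ▸ (Dvd.intro _ rfl).mul_left 2)
  have e5 := Nat.le_of_dvd (Nat.totient_pos.2 hy0)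
    ((by simp : (q + 1).Coprime q).dvd_of_dvd_mul_left e4)
  have := Nat.totient_le y
  omega

theorem red {m : ℕ} (h0 : 0 < m) (h : (fun n => n + φ n)^[2] m = 2 * m) :
    ∃ a u, m = 2 ^ a * u ∧ (u = 1 ∨ u = 3 ∨ 3 * φ u = 2 * u + 2 ∨
      ∃ w, 3 * φ w = 2 * w + 2 ∧ 3 * u = 4 * w + 1) := by
  change m + φ m + φ (m + φ m) = 2 * m at h
  have h2 : 2 < m := by
    by_contra! a
    interval_cases m <;> simp [Nat.totient_prime Nat.prime_three] at h
  obtain ⟨k1, t1⟩ := Nat.totient_even h2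
  obtain ⟨k2, t2⟩ := Nat.totient_even (show 2 < m + φ m by omega)
  obtain ⟨a, u, hu, e1⟩ := Nat.exists_eq_two_pow_mul_odd h0.ne'
  obtain ⟨b, w, hw, e2⟩ := Nat.exists_eq_two_pow_mul_odd (show m + φ m ≠ 0 by omega)
  rcases a with _ | a
  · obtain ⟨k, hk⟩ := hu
    omega
  rcases b with _ | b
  · obtain ⟨k, hk⟩ := hw
    rw [pow_succ', mul_assoc] at e1
    omega
  refine ⟨_, u, e1, ?_⟩
  have f1 : 2 ^ a * (2 * u + φ u) = 2 ^ (b + 1) * w := by
    rw [← e2, e1, tot_two_pow hu]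
    ring
  have f2 : 2 ^ b * (2 * w + φ w) = 2 ^ (a + 2) * u := by
    rw [e2, tot_two_pow hw, e1] at h
    calc _ = 2 ^ (b + 1) * w + 2 ^ b * φ w := by ring
      _ = _ := by rw [h]; ring
  by_cases hu1 : u = 1
  · exact Or.inl hu1
  by_cases hw1 : w = 1
  · subst hw1
    simp only [Nat.totient_one] at f2
    exact Or.inr (Or.inl (odd_part_unique (by decide) hu f2).2.symm)
  obtain ⟨s, hs⟩ := Nat.totient_even (show 2 < u by obtain ⟨k, hk⟩ := hu; omega)
  obtain ⟨r, hr⟩ := Nat.totient_even (show 2 < w by obtain ⟨k, hk⟩ := hw; omega)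
  have g1 : a + 1 ≤ b + 1 := by
    refine (Nat.pow_dvd_pow_iff_le_right one_lt_two).1
      (((Nat.coprime_two_left.2 hw).pow_left _).dvd_of_dvd_mul_right ⟨u + s, ?_⟩)
    rw [← f1, hs]
    ring
  have g2 : b + 1 ≤ a + 2 := by
    refine (Nat.pow_dvd_pow_iff_le_right one_lt_two).1
      (((Nat.coprime_two_left.2 hu).pow_left _).dvd_of_dvd_mul_right ⟨w + r, ?_⟩)
    rw [← f2, hr]
    ring
  obtain rfl | rfl : b = a ∨ b = a + 1 := by omega
  · refine Or.inr (Or.inr (Or.inl (red_core hu hw hw1 ?_ ?_).1))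
    · exact mul_left_cancel₀ (a := 2 ^ b) (by positivity) (by rw [f1]; ring)
    · exact mul_left_cancel₀ (a := 2 ^ b) (by positivity) (by rw [f2]; ring)
  · refine Or.inr (Or.inr (Or.inr ⟨w, red_core hw hu hu1 ?_ ?_⟩))
    · exact mul_left_cancel₀ (a := 2 ^ (a + 1)) (by positivity) (by rw [f2]; ring)
    · exact mul_left_cancel₀ (a := 2 ^ a) (by positivity) (by rw [f1]; ring)

theorem red_card {x N : ℕ} (hx : x < 2 ^ N) : ∃ C : Finset (Finset ℕ),
    (∀ S ∈ C, Sol S ∧ pr S ≤ x) ∧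
      ((Icc 1 x).filter fun m => (fun n => n + φ n)^[2] m = 2 * m).card ≤ N * (2 + 2 * C.card) := by
  set E := (range (x + 1)).filter fun n => 3 * φ n = 2 * n + 2 with hE
  refine ⟨E.image Nat.primeFactors, fun S hS => ?_, ?_⟩
  · obtain ⟨n, hn, rfl⟩ := mem_image.1 hS
    obtain ⟨a1, a2⟩ := mem_filter.1 hn
    exact ⟨(sol_of a2).1, (sol_of a2).2.trans_le (Nat.lt_succ_iff.1 (mem_range.1 a1))⟩
  rw [card_image_of_injOn fun n hn k hk e => by
    rw [← (sol_of (mem_filter.1 hn).2).2, e, (sol_of (mem_filter.1 hk).2).2]]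
  calc _ ≤ ((range N ×ˢ ({1, 3} ∪ E ∪ E.image fun w => (4 * w + 1) / 3)).image
        fun t => 2 ^ t.1 * t.2).card := by
        refine card_le_card fun m hm => ?_
        obtain ⟨a1, a2⟩ := mem_filter.1 hm
        obtain ⟨a3, a4⟩ := mem_Icc.1 a1
        obtain ⟨a, u, rfl, h⟩ := red a3 a2
        have b1 : 2 ^ a ≤ 2 ^ a * u := Nat.le_mul_of_pos_right _ (Nat.pos_of_mul_pos_left a3)
        have b2 : u ≤ 2 ^ a * u := Nat.le_mul_of_pos_left _ (by positivity)
        refine mem_image.2 ⟨(a, u), mem_product.2 ⟨mem_range.2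
          ((Nat.pow_lt_pow_iff_right one_lt_two).1 ((b1.trans a4).trans_lt hx)), ?_⟩, rfl⟩
        simp only [hE, mem_union, mem_insert, mem_singleton, mem_filter, mem_range, mem_image]
        rcases h with h | h | h | ⟨w, h1, h2⟩
        · exact Or.inl (Or.inl (Or.inl h))
        · exact Or.inl (Or.inl (Or.inr h))
        · exact Or.inl (Or.inr ⟨by omega, h⟩)
        · exact Or.inr ⟨w, ⟨by omega, h1⟩, by omega⟩
    _ ≤ _ := by
        refine card_image_le.trans ?_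
        rw [card_product, card_range]
        refine Nat.mul_le_mul_left _ ((card_union_le _ _).trans ?_)
        have a1 := card_union_le {1, 3} E
        have a2 : (E.image fun w => (4 * w + 1) / 3).card ≤ E.card := card_image_le
        have a3 : ({1, 3} : Finset ℕ).card = 2 := rfl
        omega

end Pool.Agent.Lib.MP_df8f2d_nt.Cnt
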