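import Pool.Agent.Lib.MP_df8f2d_nt.Cnt.Arith

/-!
Counting squarefree numbers with many prime factors or with many special prime factors.
-/

namespace Pool.Agent.Lib.MP_df8f2d_nt.Cnt

open Finset

/-- The sets of primes with product at most `y`. -/
def U (y : ℕ) : Finset (Finset ℕ) :=
  ((range (y + 1)).filter Nat.Prime).powerset.filter fun F => pr F ≤ y

theorem mem_U {y : ℕ} {F : Finset ℕ} : F ∈ U y ↔ (∀ p ∈ F, p.Prime) ∧ pr F ≤ y := by
  simp only [U, mem_filter, mem_powerset]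
  refine ⟨fun ⟨h1, h2⟩ => ⟨fun p hp => (mem_filter.1 (h1 hp)).2, h2⟩,
    fun ⟨h1, h2⟩ => ⟨fun p hp => mem_filter.2 ⟨mem_range.2 (Nat.lt_succ_of_le ?_), h1 p hp⟩, h2⟩⟩
  exact (Nat.le_of_dvd (pr_pos fun a ha => (h1 a ha).pos) (dvd_prod_of_mem _ hp)).trans h2

theorem harm {y L : ℕ} (h : y ≤ 2 ^ L) : ∑ d ∈ Icc 1 y, (d : ℝ)⁻¹ ≤ L + 1 := by
  have h1 := harmonic_le_one_add_log y
  rw [harmonic_eq_sum_Icc] at h1
  push_cast at h1
  refine h1.trans ?_
  rcases Nat.eq_zero_or_pos y with rfl | hy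
  · simp
  have h2 : Real.log y ≤ Real.log (2 ^ L) := Real.log_le_log (by positivity) (by exact_mod_cast h)
  rw [Real.log_pow] at h2
  have h3 : (L : ℝ) * Real.log 2 ≤ L * 1 :=
    mul_le_mul_of_nonneg_left (by linarith [Real.log_two_lt_d9]) (by positivity)
  linarith

theorem sum_U {y L : ℕ} (h : y ≤ 2 ^ L) : ∑ F ∈ U y, (pr F : ℝ)⁻¹ ≤ L + 1 := by
  refine le_trans ?_ (harm h)
  rw [← sum_image (s := U y) (g := pr) (f := fun d : ℕ => (d : ℝ)⁻¹)
    fun F hF G hG e => pr_inj (mem_U.1 hF).1 (mem_U.1 hG).1 e]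
  refine sum_le_sum_of_subset_of_nonneg (fun d hd => ?_) fun _ _ _ => by positivity
  obtain ⟨F, hF, rfl⟩ := mem_image.1 hd
  exact mem_Icc.2 ⟨pr_pos fun a ha => ((mem_U.1 hF).1 a ha).pos, (mem_U.1 hF).2⟩

theorem many {y L : ℕ} (h : y ≤ 2 ^ L) (v : ℕ) :
    (((U y).filter fun F => v ≤ F.card).card : ℝ) * 2 ^ v ≤ y * (L + 1) := by
  have h1 : ((U y).filter fun F => v ≤ F.card).card * 2 ^ v ≤ ∑ a ∈ Icc 1 y, y / a := by
    calc _ ≤ ∑ F ∈ (U y).filter fun F => v ≤ F.card, F.powerset.card := by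
          rw [← smul_eq_mul]
          refine card_nsmul_le_sum _ _ _ fun F hF => ?_
          rw [card_powerset]
          exact Nat.pow_le_pow_right two_pos (mem_filter.1 hF).2
      _ = (((U y).filter fun F => v ≤ F.card).sigma fun F => F.powerset).card :=
          (card_sigma _ _).symm
      _ ≤ ((Icc 1 y).sigma fun a => Icc 1 (y / a)).card := by
          refine card_le_card_of_injOn (fun t => ⟨pr t.2, pr (t.1 \ t.2)⟩) ?_ ?_
          · rintro ⟨F, T⟩ ht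
            simp only [coe_sigma, Set.mem_sigma_iff, mem_coe, mem_filter, mem_powerset,
              mem_Icc] at ht ⊢
            obtain ⟨⟨a1, -⟩, a2⟩ := ht
            obtain ⟨a3, a4⟩ := mem_U.1 a1
            have b1 : 0 < pr T := pr_pos fun a ha => (a3 a (a2 ha)).pos
            have b2 : 0 < pr (F \ T) := pr_pos fun a ha => (a3 a (mem_sdiff.1 ha).1).pos
            rw [← pr_sdiff a2] at a4
            exact ⟨⟨b1, (Nat.le_mul_of_pos_left _ b2).trans a4⟩, b2,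
              (Nat.le_div_iff_mul_le b1).2 a4⟩
          · rintro ⟨F, T⟩ ht ⟨F', T'⟩ ht' e
            simp only [coe_sigma, Set.mem_sigma_iff, mem_coe, mem_filter, mem_powerset] at ht ht'
            simp only [Sigma.mk.injEq, heq_eq_eq] at e
            have a1 := (mem_U.1 ht.1.1).1
            have a2 := (mem_U.1 ht'.1.1).1
            obtain rfl : T = T' := pr_inj (fun p hp => a1 p (ht.2 hp)) (fun p hp => a2 p (ht'.2 hp)) e.1
            obtain rfl : F = F' := pr_inj a1 a2 (by rw [← pr_sdiff ht.2, ← pr_sdiff ht'.2, e.2])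
            rfl
      _ = _ := by simp [card_sigma]
  calc _ ≤ ((∑ a ∈ Icc 1 y, y / a : ℕ) : ℝ) := by exact_mod_cast h1
    _ ≤ ∑ a ∈ Icc 1 y, (y : ℝ) * (a : ℝ)⁻¹ := by
        rw [Nat.cast_sum]
        exact sum_le_sum fun a _ => Nat.cast_div_le
    _ ≤ _ := by
        rw [← mul_sum]
        exact mul_le_mul_of_nonneg_left (harm h) (by positivity)

theorem dyad {j : ℕ} (hj : 0 < j) (P : Finset ℕ) (hP : ∀ p ∈ P, p.Prime ∧ Nat.log 2 p = j) :
    ∑ p ∈ P, (p : ℝ)⁻¹ ≤ 4 / j := by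
  have h1 : ∀ p ∈ P, 2 ^ j ≤ p := fun p hp =>
    (hP p hp).2 ▸ Nat.pow_log_le_self 2 (hP p hp).1.ne_zero
  have h2 : (2 ^ j) ^ P.card ≤ 4 ^ 2 ^ (j + 1) := by
    refine (pow_card_le_prod P (fun p => p) _ h1).trans (le_trans ?_ (primorial_le_four_pow _))
    refine prod_le_prod_of_subset_of_one_le' (fun p hp => mem_filter.2 ⟨mem_range.2 ?_, (hP p hp).1⟩)
      fun p hp _ => (mem_filter.1 hp).2.pos
    exact Nat.lt_succ_of_lt ((hP p hp).2 ▸ Nat.lt_pow_succ_log_self one_lt_two p)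
  rw [← pow_mul, show 4 = 2 ^ 2 from rfl, ← pow_mul, Nat.pow_le_pow_iff_right one_lt_two] at h2
  have h3 : (j : ℝ) * P.card ≤ 2 * 2 ^ (j + 1) := by exact_mod_cast h2
  calc _ ≤ P.card • ((2 : ℝ) ^ j)⁻¹ := sum_le_card_nsmul _ _ _ fun p hp =>
        inv_anti₀ (by positivity) (by exact_mod_cast h1 p hp)
    _ ≤ _ := by
      rw [nsmul_eq_mul, ← div_eq_mul_inv, div_le_div_iff₀ (by positivity) (by positivity)]
      rw [pow_succ] at h3
      linarith

theorem window {α Λ Z : ℕ} (hΛ : 0 < Λ) (P : Finset ℕ)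
    (hP : ∀ p ∈ P, p.Prime ∧ 2 ^ Λ ≤ p ∧ Z < 2 ^ α * p ∧ p < 2 ^ α * Z) :
    ∑ p ∈ P, (p : ℝ)⁻¹ ≤ (2 * α + 1) * (4 / Λ) := by
  have h1 : ∀ p ∈ P, Nat.log 2 p ∈ Icc (Nat.log 2 Z - α) (Nat.log 2 Z + α) := fun p hp => by
    obtain ⟨a1, -, a2, a3⟩ := hP p hp
    have hZ : Z ≠ 0 := by rintro rfl; simp at a3
    have b1 := Nat.pow_log_le_self 2 hZ
    have b2 := Nat.lt_pow_succ_log_self one_lt_two Z
    have b3 := Nat.pow_log_le_self 2 a1.ne_zero
    have b4 := Nat.lt_pow_succ_log_self one_lt_two p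
    have c1 : 2 ^ Nat.log 2 Z < 2 ^ (α + (Nat.log 2 p + 1)) := by
      rw [pow_add]
      exact b1.trans_lt (a2.trans_le (Nat.mul_le_mul_left _ b4.le))
    have c2 : 2 ^ Nat.log 2 p < 2 ^ (α + (Nat.log 2 Z + 1)) := by
      rw [pow_add]
      exact b3.trans_lt (a3.trans_le (Nat.mul_le_mul_left _ b2.le))
    rw [Nat.pow_lt_pow_iff_right one_lt_two] at c1 c2
    rw [mem_Icc]
    omega
  rw [← sum_fiberwise_of_maps_to h1]
  refine (sum_le_card_nsmul _ _ ((4 : ℝ) / Λ) fun j _ => ?_).trans ?_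
  · rcases (P.filter fun p => Nat.log 2 p = j).eq_empty_or_nonempty with e | ⟨p, hp⟩
    · rw [e, sum_empty]
      positivity
    have a1 : Λ ≤ j := (mem_filter.1 hp).2 ▸
      Nat.le_log_of_pow_le one_lt_two (hP p (mem_filter.1 hp).1).2.1
    refine (dyad (hΛ.trans_le a1) _ fun p hp =>
      ⟨(hP p (mem_filter.1 hp).1).1, (mem_filter.1 hp).2⟩).trans ?_
    gcongr
  · rw [nsmul_eq_mul, Nat.card_Icc]
    gcongr
    exact_mod_cast (by omega)

/-- The sets with at most `u` primes, at least `J` of them special. -/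
def V (z : Finset ℕ → ℕ) (y u A W J : ℕ) : Finset (Finset ℕ) :=
  (U y).filter fun F => F.card ≤ u ∧ J ≤ (sp z A W F).card

theorem V_step (z : Finset ℕ → ℕ) {y u A α Λ : ℕ} (hΛ : 0 < Λ) (hA : A ≤ 2 ^ α) (J : ℕ) :
    ∑ F ∈ V z y u A (2 ^ Λ) (J + 1), (pr F : ℝ)⁻¹ ≤
      (u + 1) * ((2 * α + 1) * (4 / Λ)) * ∑ F ∈ V z y u A (2 ^ Λ) J, (pr F : ℝ)⁻¹ := by
  let P : Finset ℕ → Finset ℕ := fun e => (range (y + 1)).filter fun p =>
    p.Prime ∧ 2 ^ Λ ≤ p ∧ z (lo e p) < 2 ^ α * p ∧ p < 2 ^ α * z (lo e p)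
  have h1 : ∀ F ∈ V z y u A (2 ^ Λ) (J + 1), ∃ p ∈ F, F.erase p ∈ V z y u A (2 ^ Λ) J ∧
      p ∈ P (F.erase p) := fun F hF => by
    obtain ⟨a1, a2, a3⟩ := mem_filter.1 hF
    obtain ⟨a4, a5⟩ := mem_U.1 a1
    have hne : (sp z A (2 ^ Λ) F).Nonempty := card_pos.1 (by omega)
    obtain ⟨p, hp, hmax⟩ := exists_max_image _ id hne
    obtain ⟨b1, b2, b3, b4⟩ := mem_filter.1 hp
    have e : ∀ q ≤ p, lo (F.erase p) q = lo F q := fun q hq => by
      ext a
      simp only [mem_lo, mem_erase]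
      exact ⟨fun h => ⟨h.1.2, h.2⟩, fun h => ⟨⟨(h.2.trans_le hq).ne, h.1⟩, h.2⟩⟩
    have hd : pr (F.erase p) ≤ pr F := Nat.le_of_dvd (pr_pos fun a ha => (a4 a ha).pos)
      (prod_dvd_prod_of_subset _ _ _ (erase_subset _ _))
    refine ⟨p, b1, mem_filter.2 ⟨mem_U.2 ⟨fun q hq => a4 q (mem_of_mem_erase hq), hd.trans a5⟩,
      card_erase_le.trans a2, ?_⟩, mem_filter.2 ⟨mem_range.2 (Nat.lt_succ_of_le ?_), a4 p b1, b2, ?_⟩⟩
    · refine le_trans ?_ (card_le_card (s := (sp z A (2 ^ Λ) F).erase p) fun q hq => ?_)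
      · rw [card_erase_of_mem hp]
        omega
      · obtain ⟨c1, c2⟩ := mem_erase.1 hq
        refine mem_filter.2 ⟨mem_erase.2 ⟨c1, (mem_filter.1 c2).1⟩, ?_⟩
        rw [e q (hmax q c2)]
        exact (mem_filter.1 c2).2
    · exact (Nat.le_of_dvd (pr_pos fun a ha => (a4 a ha).pos) (dvd_prod_of_mem _ b1)).trans a5
    · rw [e p le_rfl]
      exact ⟨b3.trans_le (Nat.mul_le_mul_right _ hA), b4.trans_le (Nat.mul_le_mul_right _ hA)⟩
  choose! g g1 g2 g3 using h1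
  have h2 : ∀ e ∈ V z y u A (2 ^ Λ) J,
      ∑ p ∈ P e, (p : ℝ)⁻¹ ≤ (u + 1) * ((2 * α + 1) * (4 / Λ)) := fun e he => by
    have a1 : ∀ p ∈ P e, (lo e p).card ∈ range (u + 1) := fun p _ =>
      mem_range.2 (Nat.lt_succ_of_le ((card_filter_le _ _).trans (mem_filter.1 he).2.1))
    rw [← sum_fiberwise_of_maps_to a1]
    refine (sum_le_card_nsmul _ _ ((2 * α + 1) * ((4 : ℝ) / Λ)) fun t _ => ?_).trans_eq (by simp)
    rcases ((P e).filter fun p => (lo e p).card = t).eq_empty_or_nonempty with e0 | ⟨p, hp⟩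
    · rw [e0, sum_empty]
      positivity
    refine window (Z := z (lo e p)) hΛ _ fun q hq => ?_
    rw [lo_eq_of_card ((mem_filter.1 hp).2.trans (mem_filter.1 hq).2.symm)]
    exact (mem_filter.1 (mem_filter.1 hq).1).2
  calc _ = ∑ t ∈ (V z y u A (2 ^ Λ) (J + 1)).image
        (fun F => (⟨F.erase (g F), g F⟩ : Σ _ : Finset ℕ, ℕ)), (t.2 : ℝ)⁻¹ * (pr t.1 : ℝ)⁻¹ := by
        rw [sum_image]
        · refine sum_congr rfl fun F hF => ?_
          rw [← mul_inv, ← Nat.cast_mul, ← pr_insert (notMem_erase _ _), insert_erase (g1 F hF)]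
        · intro F hF G hG e
          simp only [Sigma.mk.injEq, heq_eq_eq] at e
          rw [← insert_erase (g1 F hF), e.1, e.2, insert_erase (g1 G hG)]
    _ ≤ ∑ t ∈ (V z y u A (2 ^ Λ) J).sigma P, (t.2 : ℝ)⁻¹ * (pr t.1 : ℝ)⁻¹ := by
        refine sum_le_sum_of_subset_of_nonneg (fun t ht => ?_) fun _ _ _ => by positivity
        obtain ⟨F, hF, rfl⟩ := mem_image.1 ht
        exact mem_sigma.2 ⟨g2 F hF, g3 F hF⟩
    _ ≤ _ := by
        rw [sum_sigma, mul_sum]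
        refine sum_le_sum fun e he => ?_
        simp only
        rw [← sum_mul]
        exact mul_le_mul_of_nonneg_right (h2 e he) (by positivity)

theorem V_card (z : Finset ℕ → ℕ) {y L u A α Λ : ℕ} (h : y ≤ 2 ^ L) (hΛ : 0 < Λ)
    (hA : A ≤ 2 ^ α) (J : ℕ) :
    ((V z y u A (2 ^ Λ) J).card : ℝ) ≤
      y * (((u + 1) * ((2 * α + 1) * (4 / Λ))) ^ J * (L + 1)) := by
  have h1 : ∑ F ∈ V z y u A (2 ^ Λ) J, (pr F : ℝ)⁻¹ ≤
      ((u + 1) * ((2 * α + 1) * (4 / Λ))) ^ J * (L + 1) := by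
    induction J with
    | zero =>
      rw [pow_zero, one_mul]
      exact (sum_le_sum_of_subset_of_nonneg (filter_subset _ _)
        fun _ _ _ => by positivity).trans (sum_U h)
    | succ J ih =>
      rw [pow_succ', mul_assoc]
      exact (V_step z hΛ hA J).trans (mul_le_mul_of_nonneg_left ih (by positivity))
  refine le_trans ?_ (mul_le_mul_of_nonneg_left h1 (by positivity))
  rw [mul_sum, card_eq_sum_ones, Nat.cast_sum]
  refine sum_le_sum fun F hF => ?_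
  obtain ⟨a1, a2⟩ := mem_U.1 (mem_filter.1 hF).1
  have a3 : (0 : ℝ) < pr F := by exact_mod_cast pr_pos fun a ha => (a1 a ha).pos
  rw [← div_eq_mul_inv, Nat.cast_one, one_le_div a3]
  exact_mod_cast a2

end Pool.Agent.Lib.MP_df8f2d_nt.Cnt
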